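import Pool.Agent.BCF.Step

/-!
# The end of the elimination and the closing of the network
-/

open Polynomial

namespace Pool.Agent.BCF

variable {V : Type} [Fintype V] [DecidableEq V]

theorem col_congr {w w' : Sym2 V → PP} (h : ∀ s ∈ prs V, w s = w' s) (k : ℕ) :
    col w k = col w' k := by
  unfold col
  refine Finset.sum_congr rfl fun σ _ => Finset.prod_congr rfl fun s hs => ?_
  unfold tm
  rw [h s hs]

/-- Linearity in one pair. -/
theorem col_split (w : Sym2 V → PP) {s : Sym2 V} (hs : s ∈ prs V) (p : PP) (k : ℕ) :
    col (Function.update w s p) k = p.1.eval (k : ℝ) * col (Function.update w s (1, 0)) k +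
      p.2.eval (k : ℝ) * col (Function.update w s (0, 1)) k := by
  unfold col
  rw [Finset.mul_sum, Finset.mul_sum, ← Finset.sum_add_distrib]
  refine Finset.sum_congr rfl fun σ _ => ?_
  have h : ∀ r : PP, ∏ t ∈ prs V, tm (Function.update w s r) k σ t =
      tm (Function.update w s r) k σ s * ∏ t ∈ (prs V).erase s, tm w k σ t := by
    intro r
    rw [← Finset.mul_prod_erase _ _ hs]
    congr 1
    refine Finset.prod_congr rfl fun t ht => ?_
    rw [Finset.mem_erase] at ht
    unfold tm
    rw [Function.update_of_ne ht.1]
  rw [h p, h (1, 0), h (0, 1)]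
  have h2 : ∀ r : PP, tm (Function.update w s r) k σ s =
      if (s.map σ).IsDiag then r.1.eval (k : ℝ) else r.2.eval (k : ℝ) := by
    intro r
    unfold tm
    rw [Function.update_self]
  rw [h2, h2, h2]
  split_ifs <;> simp

/-- The environment given by the edge sets `F` and `F'`. -/
noncomputable def env (F F' : Finset (Sym2 V)) : PP := ((X - 1) * (Zp F - Zp F'), Zp F')

theorem br_mul (g a b : ℝ[X]) : br (g * a) (g * b) = g.eval (-1) ^ 2 * br a b := by
  unfold br
  simp only [derivative_mul, eval_add, eval_mul]
  ring

theorem Zp_step {F : Finset (Sym2 V)} {x y : V} (hxy : x ≠ y) (hn : s(x, y) ∉ F)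
    (hF : ∀ s ∈ F, ¬ s.IsDiag) :
    (Zp (insert s(x, y) F)).eval (-1) = (Zp F).eval (-1) +
      (Zp (F.image (Sym2.map fun z => if z = y then x else z))).eval (-1) := by
  have hE : ∀ s ∈ insert s(x, y) F, ¬ s.IsDiag := by
    intro s hs
    rw [Finset.mem_insert] at hs
    rcases hs with rfl | hs
    · simpa using hxy
    · exact hF s hs
  have hc := congrArg (eval (-1)) (Zp_contract hxy (Finset.mem_insert_self _ F) hE)
  rw [Finset.erase_insert hn, eval_mul, eval_X, eval_sub] at hc
  linarith

/-- After the contraction of `xy` there are no loops if `xy` was no edge. -/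
theorem image_not_diag {F : Finset (Sym2 V)} {x y : V} (hn : s(x, y) ∉ F)
    (hF : ∀ s ∈ F, ¬ s.IsDiag) :
    ∀ s ∈ F.image (Sym2.map fun z => if z = y then x else z), ¬ s.IsDiag := by
  intro s hs
  rw [Finset.mem_image] at hs
  obtain ⟨t, ht, rfl⟩ := hs
  induction t using Sym2.ind with
  | _ p q =>
    have hpq : p ≠ q := by
      intro h
      exact hF _ ht (by simp [h])
    simp only [Sym2.map_mk, Sym2.mk_isDiag_iff]
    by_cases hp : p = y <;> by_cases hq : q = y
    · exact absurd (hp.trans hq.symm) hpq
    · subst hp
      simp only [if_true, hq, if_false]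
      intro h
      subst h
      exact hn (by rw [Sym2.eq_swap]; exact ht)
    · subst hq
      simp only [if_true, hp, if_false]
      intro h
      subst h
      exact hn ht
    · simp only [hp, hq, if_false]
      exact hpq

/-- A new edge increases the number of acyclic orientations, but at most by the factor two. -/
theorem Zp_double (n : ℕ) : ∀ F : Finset (Sym2 V), F.card = n → (∀ s ∈ F, ¬ s.IsDiag) →
    ∀ g : Sym2 V, ¬ g.IsDiag →
    (-1 : ℝ) ^ Fintype.card V * (Zp (insert g F)).eval (-1) ≤
      2 * ((-1 : ℝ) ^ Fintype.card V * (Zp F).eval (-1)) := by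
  induction n using Nat.strong_induction_on with
  | _ n ih =>
    intro F hn hF g hg
    have hpos := Zp_pos hF
    by_cases hgF : g ∈ F
    · rw [Finset.insert_eq_of_mem hgF]
      linarith
    rcases F.eq_empty_or_nonempty with rfl | ⟨e, he⟩
    · induction g using Sym2.ind with
      | _ x y =>
        have hxy : x ≠ y := by simpa using hg
        rw [Zp_step hxy hgF hF, Finset.image_empty]
        linarith
    · induction e using Sym2.ind with
      | _ x y =>
        have hxy : x ≠ y := by
          intro h
          exact hF _ he (by simp [h])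
        have hne : g ≠ s(x, y) := by
          rintro rfl
          exact hgF he
        set φ : V → V := fun z => if z = y then x else z with hφ
        set F0 := F.erase s(x, y) with hF0
        have hF0d : ∀ s ∈ F0, ¬ s.IsDiag := fun s hs => hF s (Finset.mem_of_mem_erase hs)
        have hxy0 : s(x, y) ∉ F0 := Finset.notMem_erase _ _
        have e1 : F = insert s(x, y) F0 := (Finset.insert_erase he).symm
        have e2 : insert g F = insert s(x, y) (insert g F0) := by
          rw [e1, Finset.insert_comm]
        have hxy1 : s(x, y) ∉ insert g F0 := by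
          rw [Finset.mem_insert]
          push Not
          exact ⟨hne.symm, hxy0⟩
        have hgd : ∀ s ∈ insert g F0, ¬ s.IsDiag := by
          intro s hs
          rw [Finset.mem_insert] at hs
          rcases hs with rfl | hs
          · exact hg
          · exact hF0d s hs
        have s1 := Zp_step hxy hxy0 hF0d
        have s2 := Zp_step hxy hxy1 hgd
        rw [← e1] at s1
        rw [← e2, Finset.image_insert] at s2
        have hcard : F0.card < n := by
          rw [hF0, Finset.card_erase_of_mem he, hn]
          have : 0 < F.card := Finset.card_pos.mpr ⟨_, he⟩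
          omega
        have i1 := ih _ hcard F0 rfl hF0d g hg
        have i2 := ih (F0.image (Sym2.map φ)).card
          (lt_of_le_of_lt Finset.card_image_le hcard) (F0.image (Sym2.map φ)) rfl
          (image_not_diag hxy0 hF0d) (Sym2.map φ g)
          (image_not_diag hxy1 hgd _ (Finset.mem_image_of_mem _ (Finset.mem_insert_self _ _)))
        rw [s1, s2]
        linarith

/-- The value and the derivative of the environment. -/
theorem env_jet {F : Finset (Sym2 V)} {x y : V} (hxy : x ≠ y) (hn : s(x, y) ∉ F)
    (hF : ∀ s ∈ F, ¬ s.IsDiag)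
    (hε : (derivative (Zp F)).eval (-1) / (Zp F).eval (-1) ≤
      (derivative (Zp (insert s(x, y) F))).eval (-1) / (Zp (insert s(x, y) F)).eval (-1)) :
    ∃ yo Do : ℝ, Jet (env F (insert s(x, y) F)) yo Do ∧ 0 ≤ yo ∧ yo ≤ 1 ∧ Do ≤ 1 / 2 := by
  have hF' : ∀ s ∈ insert s(x, y) F, ¬ s.IsDiag := by
    intro s hs
    rw [Finset.mem_insert] at hs
    rcases hs with rfl | hs
    · simpa using hxy
    · exact hF s hs
  have p1 := Zp_pos hF
  have p2 := Zp_pos hF'
  have p3 := Zp_pos (image_not_diag hn hF)
  have st := Zp_step hxy hn hF
  have db := Zp_double F.card F rfl hF s(x, y) (by simpa using hxy)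
  set F' := insert s(x, y) F with hF'def
  set a := (Zp F).eval (-1) with ha
  set b := (Zp F').eval (-1) with hb
  set a' := (derivative (Zp F)).eval (-1) with ha'
  set b' := (derivative (Zp F')).eval (-1) with hb'
  set u := (-1 : ℝ) ^ Fintype.card V with hu
  have hu2 : u * u = 1 := by rw [hu, ← mul_pow]; norm_num
  have hu0 : u ≠ 0 := by
    intro h; rw [h] at hu2; norm_num at hu2
  have ha0 : a ≠ 0 := by
    intro h; rw [h, mul_zero] at p1; exact lt_irrefl _ p1
  have hb0 : b ≠ 0 := by
    intro h; rw [h, mul_zero] at p2; exact lt_irrefl _ p2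
  have hQ : a / b = (u * a) / (u * b) := by
    rw [mul_div_mul_left _ _ hu0]
  have hQ1 : a / b ≤ 1 := by
    rw [hQ, div_le_one p2]
    have : u * b = u * a + u * (Zp (F.image (Sym2.map fun z => if z = y then x else z))).eval (-1) := by
      rw [st]; ring
    linarith
  have hQ2 : 1 / 2 ≤ a / b := by
    rw [hQ, le_div_iff₀ p2]
    linarith
  refine ⟨2 * (a / b) - 1, 2 * (a / b) * (a' / a - b' / b) + (1 - a / b), ⟨hb0, ?_, ?_⟩, by linarith,
    by linarith, ?_⟩
  · simp only [env, eval_mul, eval_sub, eval_X, eval_one]
    rw [← ha, ← hb]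
    field_simp
    ring
  · simp only [env, derivative_mul, derivative_sub, derivative_X, derivative_one, sub_zero,
      eval_add, eval_mul, eval_sub, eval_X, eval_one, one_mul]
    rw [← ha, ← hb, ← ha', ← hb']
    field_simp
    ring
  · have h1 : 2 * (a / b) * (a' / a - b' / b) ≤ 0 := by
      apply mul_nonpos_of_nonneg_of_nonpos
      · linarith
      · linarith
    linarith

end Pool.Agent.BCF
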