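import Pool.Agent.BCF.Col

/-!
# The chromatic polynomial in Whitney's form
-/

open Polynomial

namespace Pool.Agent.BCF

variable {V : Type} [Fintype V] [DecidableEq V]

/-- Number of connected components of the spanning subgraph with the edge set `A`. -/
noncomputable def nc (A : Finset (Sym2 V)) : ℕ :=
  Nat.card (SimpleGraph.fromEdgeSet (A : Set (Sym2 V))).ConnectedComponent

/-- Whitney's subset expansion. -/
noncomputable def Zp (E : Finset (Sym2 V)) : ℝ[X] :=
  ∑ A ∈ E.powerset, C ((-1 : ℝ) ^ A.card) * X ^ nc A

theorem count_const (A : Finset (Sym2 V)) (k : ℕ) :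
    ∑ σ : V → Fin k, ∏ s ∈ A, (if (s.map σ).IsDiag then (1 : ℝ) else 0) = (k : ℝ) ^ nc A := by
  classical
  have h1 : ∀ σ : V → Fin k, ∏ s ∈ A, (if (s.map σ).IsDiag then (1 : ℝ) else 0) =
      if ∀ s ∈ A, (s.map σ).IsDiag then 1 else 0 := by
    intro σ
    by_cases h : ∀ s ∈ A, (s.map σ).IsDiag
    · rw [if_pos h]
      exact Finset.prod_eq_one fun s hs => if_pos (h s hs)
    · rw [if_neg h]
      push Not at h
      obtain ⟨s, hs, hs'⟩ := h
      exact Finset.prod_eq_zero hs (if_neg hs')
  rw [Finset.sum_congr rfl fun σ _ => h1 σ, Finset.sum_boole]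
  let G := SimpleGraph.fromEdgeSet (A : Set (Sym2 V))
  have hfin : Finite G.ConnectedComponent := inferInstance
  have : Fintype G.ConnectedComponent := Fintype.ofFinite _
  let e : {σ : V → Fin k // ∀ s ∈ A, (s.map σ).IsDiag} ≃ (G.ConnectedComponent → Fin k) :=
    { toFun := fun σ c => SimpleGraph.ConnectedComponent.lift σ.1 (by
        intro v w p hp
        clear hp
        induction p with
        | nil => rfl
        | cons hadj _ ih =>
          rw [SimpleGraph.fromEdgeSet_adj] at hadj
          have := σ.2 _ hadj.1
          simp only [Sym2.map_mk, Sym2.mk_isDiag_iff] at this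
          exact this.trans ih) c
      invFun := fun g => ⟨fun v => g (G.connectedComponentMk v), by
        intro s hs
        induction s using Sym2.ind with
        | _ p q =>
          simp only [Sym2.map_mk, Sym2.mk_isDiag_iff]
          by_cases hpq : p = q
          · rw [hpq]
          · congr 1
            apply SimpleGraph.ConnectedComponent.sound
            apply SimpleGraph.Adj.reachable
            rw [SimpleGraph.fromEdgeSet_adj]
            exact ⟨hs, hpq⟩⟩
      left_inv := fun σ => by
        ext v
        rfl
      right_inv := fun g => by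
        funext c
        induction c using SimpleGraph.ConnectedComponent.ind
        rfl }
  have h2 : (Finset.univ.filter fun σ : V → Fin k => ∀ s ∈ A, (s.map σ).IsDiag).card =
      Fintype.card {σ : V → Fin k // ∀ s ∈ A, (s.map σ).IsDiag} := by
    rw [Fintype.card_subtype]
  rw [h2, Fintype.card_congr e, Fintype.card_fun, Fintype.card_fin]
  have h3 : Fintype.card G.ConnectedComponent = nc A := by
    rw [nc, Nat.card_eq_fintype_card]
  rw [h3]
  push_cast
  rfl

theorem Zp_eval (E : Finset (Sym2 V)) (k : ℕ) :
    (Zp E).eval (k : ℝ) =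
      ∑ σ : V → Fin k, ∏ s ∈ E, (if (s.map σ).IsDiag then (0 : ℝ) else 1) := by
  classical
  have h1 : ∀ σ : V → Fin k, ∏ s ∈ E, (if (s.map σ).IsDiag then (0 : ℝ) else 1) =
      ∑ A ∈ E.powerset, (-1 : ℝ) ^ A.card *
        ∏ s ∈ A, (if (s.map σ).IsDiag then (1 : ℝ) else 0) := by
    intro σ
    have e1 : ∀ s ∈ E, (if (s.map σ).IsDiag then (0 : ℝ) else 1) =
        -(if (s.map σ).IsDiag then (1 : ℝ) else 0) + 1 := by
      intro s _
      split_ifs <;> simp
    rw [Finset.prod_congr rfl e1, Finset.prod_add]
    refine Finset.sum_congr rfl fun A _ => ?_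
    rw [Finset.prod_const_one, mul_one, Finset.prod_neg]
  rw [Finset.sum_congr rfl fun σ _ => h1 σ, Finset.sum_comm]
  unfold Zp
  rw [eval_finsetSum]
  refine Finset.sum_congr rfl fun A _ => ?_
  rw [← Finset.mul_sum, count_const]
  simp

/-- The weights of a graph with the edge set `E`. -/
noncomputable def w0 (E : Finset (Sym2 V)) : Sym2 V → PP := fun s =>
  if s ∈ E then (0, 1) else (1, 1)

theorem col_w0 {E : Finset (Sym2 V)} (hE : ∀ s ∈ E, ¬ s.IsDiag) (k : ℕ) :
    col (w0 E) k = (Zp E).eval (k : ℝ) := by
  rw [Zp_eval]
  unfold col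
  refine Finset.sum_congr rfl fun σ _ => ?_
  have hsub : E ⊆ prs V := fun s hs => by simp [prs, hE s hs]
  rw [← Finset.prod_subset hsub (f := tm (w0 E) k σ)]
  · refine Finset.prod_congr rfl fun s hs => ?_
    unfold tm w0
    rw [if_pos hs]
    simp
  · intro s _ hs
    unfold tm w0
    rw [if_neg hs]
    simp

theorem col_w0_update {E : Finset (Sym2 V)} (hE : ∀ s ∈ E, ¬ s.IsDiag) {e : Sym2 V}
    (he : e ∈ E) (k : ℕ) :
    col (Function.update (w0 E) e (1, 0)) k = (Zp (E.erase e) - Zp E).eval (k : ℝ) := by
  rw [eval_sub, Zp_eval, Zp_eval, ← Finset.sum_sub_distrib]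
  unfold col
  refine Finset.sum_congr rfl fun σ _ => ?_
  have hsub : E ⊆ prs V := fun s hs => by simp [prs, hE s hs]
  rw [← Finset.prod_subset hsub (f := tm (Function.update (w0 E) e (1, 0)) k σ)]
  · rw [← Finset.mul_prod_erase E _ he, ← Finset.mul_prod_erase E _ he]
    have h1 : ∏ s ∈ E.erase e, tm (Function.update (w0 E) e (1, 0)) k σ s =
        ∏ s ∈ E.erase e, (if (s.map σ).IsDiag then (0 : ℝ) else 1) := by
      refine Finset.prod_congr rfl fun s hs => ?_
      rw [Finset.mem_erase] at hs
      unfold tm
      rw [Function.update_of_ne hs.1]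
      unfold w0
      rw [if_pos hs.2]
      simp
    rw [h1]
    have h2 : tm (Function.update (w0 E) e (1, 0)) k σ e =
        if (e.map σ).IsDiag then 1 else 0 := by
      unfold tm
      rw [Function.update_self]
      simp
    rw [h2]
    split_ifs <;> simp
  · intro s _ hs
    have hne : s ≠ e := fun h => hs (h ▸ he)
    unfold tm
    rw [Function.update_of_ne hne]
    unfold w0
    rw [if_neg hs]
    simp

omit [Fintype V] [DecidableEq V] in
theorem poly_ext {P Q : ℝ[X]} (h : ∀ k : ℕ, P.eval (k : ℝ) = Q.eval (k : ℝ)) : P = Q := by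
  apply Polynomial.eq_of_infinite_eval_eq
  apply Set.Infinite.mono (s := Set.range (fun k : ℕ => (k : ℝ)))
  · rintro _ ⟨k, rfl⟩
    exact h k
  · exact Set.infinite_range_of_injective Nat.cast_injective

/-- Deletion and contraction of the edge `xy`, with the contraction on the same vertex set. -/
theorem Zp_contract {E : Finset (Sym2 V)} {x y : V} (hxy : x ≠ y) (he : s(x, y) ∈ E)
    (hE : ∀ s ∈ E, ¬ s.IsDiag) :
    X * (Zp (E.erase s(x, y)) - Zp E) =
      Zp ((E.erase s(x, y)).image (Sym2.map fun z => if z = y then x else z)) := by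
  apply poly_ext
  intro k
  rw [eval_mul, eval_X, ← col_w0_update hE he, Zp_eval]
  unfold col
  rw [sum_update y]
  refine Finset.sum_congr rfl fun σ _ => ?_
  have hsub : E ⊆ prs V := fun s hs => by simp [prs, hE s hs]
  -- the product for a colouring `τ`
  have h1 : ∀ τ : V → Fin k, ∏ s ∈ prs V, tm (Function.update (w0 E) s(x, y) (1, 0)) k τ s =
      (if τ x = τ y then 1 else 0) *
        ∏ s ∈ E.erase s(x, y), (if (s.map τ).IsDiag then (0 : ℝ) else 1) := by
    intro τ
    rw [← Finset.prod_subset hsub (f := tm (Function.update (w0 E) s(x, y) (1, 0)) k τ)]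
    · rw [← Finset.mul_prod_erase E _ he]
      congr 1
      · unfold tm
        rw [Function.update_self]
        simp
      · refine Finset.prod_congr rfl fun s hs => ?_
        rw [Finset.mem_erase] at hs
        unfold tm
        rw [Function.update_of_ne hs.1]
        unfold w0
        rw [if_pos hs.2]
        simp
    · intro s _ hs
      have hne : s ≠ s(x, y) := fun h => hs (h ▸ he)
      unfold tm
      rw [Function.update_of_ne hne]
      unfold w0
      rw [if_neg hs]
      simp
  rw [Finset.sum_congr rfl fun c _ => h1 _]
  rw [Finset.sum_eq_single (σ x)]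
  · rw [Function.update_of_ne hxy, Function.update_self, if_pos rfl, one_mul]
    have h2 : Function.update σ y (σ x) = σ ∘ fun z => if z = y then x else z := by
      funext z
      by_cases hz : z = y
      · subst hz; simp
      · simp [hz]
    rw [h2]
    have h3 : ∀ F : Finset (Sym2 V), ∀ τ : V → Fin k,
        ∏ s ∈ F, (if (s.map τ).IsDiag then (0 : ℝ) else 1) =
          if ∀ s ∈ F, ¬ (s.map τ).IsDiag then 1 else 0 := by
      intro F τ
      by_cases h : ∀ s ∈ F, ¬ (s.map τ).IsDiag
      · rw [if_pos h]
        exact Finset.prod_eq_one fun s hs => if_neg (h s hs)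
      · rw [if_neg h]
        push Not at h
        obtain ⟨s, hs, hs'⟩ := h
        exact Finset.prod_eq_zero hs (if_pos hs')
    rw [h3, h3]
    congr 1
    simp only [Finset.mem_image, forall_exists_index, and_imp, forall_apply_eq_imp_iff₂,
      Sym2.map_map]
  · intro c _ hc
    rw [Function.update_of_ne hxy, Function.update_self, if_neg (fun h => hc h.symm), zero_mul]
  · intro h
    exact absurd (Finset.mem_univ _) h

theorem Zp_pos_aux (n : ℕ) : ∀ E : Finset (Sym2 V), E.card = n → (∀ s ∈ E, ¬ s.IsDiag) →
    0 < (-1 : ℝ) ^ Fintype.card V * (Zp E).eval (-1) := by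
  induction n using Nat.strong_induction_on with
  | _ n ih =>
    intro E hn hE
    rcases E.eq_empty_or_nonempty with rfl | ⟨e, he⟩
    · have h1 : nc (∅ : Finset (Sym2 V)) = Fintype.card V := by
        have h2 := count_const (∅ : Finset (Sym2 V)) 2
        simp only [Finset.prod_empty, Finset.sum_const, Finset.card_univ, Fintype.card_fun,
          Fintype.card_fin, nsmul_eq_mul, mul_one] at h2
        have h3 : (2 : ℕ) ^ Fintype.card V = 2 ^ nc (∅ : Finset (Sym2 V)) := by
          exact_mod_cast h2
        exact (Nat.pow_right_injective le_rfl h3).symm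
      simp only [Zp, Finset.powerset_empty, Finset.sum_singleton, Finset.card_empty, pow_zero,
        map_one, one_mul, eval_pow, eval_X, h1]
      rw [← mul_pow]
      norm_num
    · induction e using Sym2.ind with
      | _ x y =>
        have hxy : x ≠ y := by
          intro h
          exact hE _ he (by simp [h])
        set E' := (E.erase s(x, y)).image (Sym2.map fun z => if z = y then x else z) with hE'
        have hc := congrArg (eval (-1)) (Zp_contract hxy he hE)
        rw [eval_mul, eval_X, eval_sub, ← hE'] at hc
        have hcard : (E.erase s(x, y)).card < n := by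
          rw [Finset.card_erase_of_mem he, hn]
          have : 0 < E.card := Finset.card_pos.mpr ⟨_, he⟩
          omega
        have i1 := ih _ hcard (E.erase s(x, y)) rfl
          fun s hs => hE s (Finset.mem_of_mem_erase hs)
        have i2 := ih E'.card (lt_of_le_of_lt Finset.card_image_le hcard) E' rfl (by
          intro s hs
          rw [hE', Finset.mem_image] at hs
          obtain ⟨t, ht, rfl⟩ := hs
          rw [Finset.mem_erase] at ht
          induction t using Sym2.ind with
          | _ p q =>
            have hpq : p ≠ q := by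
              intro h
              exact hE _ ht.2 (by simp [h])
            simp only [Sym2.map_mk, Sym2.mk_isDiag_iff]
            by_cases hp : p = y <;> by_cases hq : q = y
            · exact absurd (hp.trans hq.symm) hpq
            · subst hp
              simp only [if_true, hq, if_false]
              intro h
              subst h
              exact ht.1 Sym2.eq_swap
            · subst hq
              simp only [if_true, hp, if_false]
              intro h
              subst h
              exact ht.1 rfl
            · simp only [hp, hq, if_false]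
              exact hpq)
        have h4 : (Zp E).eval (-1) =
            (Zp (E.erase s(x, y))).eval (-1) + (Zp E').eval (-1) := by linarith
        rw [h4, mul_add]
        exact add_pos i1 i2

theorem Zp_pos {E : Finset (Sym2 V)} (hE : ∀ s ∈ E, ¬ s.IsDiag) :
    0 < (-1 : ℝ) ^ Fintype.card V * (Zp E).eval (-1) := Zp_pos_aux _ E rfl hE

end Pool.Agent.BCF
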