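import Pool.Agent.BCF.Base

/-!
# Closing the network, and the theorem
-/

open Polynomial

namespace Pool.Agent.BCF

variable {V : Type} [Fintype V] [DecidableEq V]

theorem NP_env {p : PP} {Φ : Set PP} (h : NP p Φ) {o : PP} {yo Do : ℝ} (ho : Jet o yo Do)
    (h0 : 0 ≤ yo) (h1 : yo ≤ 1) (hD : Do ≤ 1 / 2) :
    ∃ c ∈ Φ, br (prg c o) (prg p o) < 0 := by
  obtain ⟨y, z, j, p1, q1, s1, h2⟩ := h
  by_contra hcon
  push Not at hcon
  have := h2 o yo Do ho h0 h1 fun c hc => hcon c hc
  linarith

theorem base_concl {H : SimpleGraph V} {C : Finset V} {u v : V} {q : PP}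
    {E : Finset (Sym2 V)} {w : Sym2 V → PP} {Φ : Sym2 V → Set PP} (huv : u ≠ v)
    (st : St H C ∅ u v q (w0 E) w Φ) (P : PP → ℝ[X]) (o : PP)
    (hP : ∀ p k, col (Function.update (w0 (E.filter fun s => ∀ x ∈ C, x ∉ s)) s(u, v)
      (par p q)) k = (P p).eval (k : ℝ))
    (hPo : ∀ p, (X - 1) * P p = prg p o) {yo Do : ℝ} (ho : Jet o yo Do)
    (h0 : 0 ≤ yo) (h1 : yo ≤ 1) (hD : Do ≤ 1 / 2) : Concl q u v w Φ := by
  have key : ∀ p : PP, ∀ s ∈ prs V, wq q u v (Function.update w s(u, v) p) s =
      Function.update (w0 (E.filter fun s => ∀ x ∈ C, x ∉ s)) s(u, v) (par p q) s := by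
    intro p s hs
    by_cases h2 : s = s(u, v)
    · rw [h2]
      unfold wq
      rw [Function.update_self, Function.update_self, Function.update_self]
    · rw [wq_of_ne h2, Function.update_of_ne h2, Function.update_of_ne h2]
      by_cases h3 : ∀ x ∈ C, x ∉ s
      · rw [st.rest s h3 h2]
        unfold w0
        simp only [Finset.mem_filter]
        by_cases h4 : s ∈ E
        · rw [if_pos h4, if_pos ⟨h4, h3⟩]
        · rw [if_neg h4, if_neg fun h => h4 h.1]
      · push Not at h3
        obtain ⟨x, hxC, hxs⟩ := h3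
        have h4 : w0 (E.filter fun s => ∀ x ∈ C, x ∉ s) s = (1, 1) := by
          unfold w0
          rw [if_neg]
          rw [Finset.mem_filter]
          rintro ⟨_, h⟩
          exact h x hxC hxs
        rw [h4]
        induction s using Sym2.ind with
        | _ a b =>
          rw [mem_prs] at hs
          rw [Sym2.mem_iff] at hxs
          rcases hxs with rfl | rfl
          · exact st.out x hxC (Finset.notMem_empty _) b hs.symm
          · rw [Sym2.eq_swap]
            exact st.out x hxC (Finset.notMem_empty _) a hs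
  obtain ⟨c, hc, hbr⟩ := NP_env (st.fin rfl) ho h0 h1 hD
  refine ⟨s(u, v), by simpa using huv, c, hc, 0, P (w s(u, v)), P c, ?_, ?_, ?_⟩
  · intro k
    rw [pow_zero, one_mul, ← hP, ← col_congr (key (w s(u, v))), Function.update_eq_self]
  · intro k
    rw [pow_zero, one_mul, ← hP, ← col_congr (key c)]
  · rw [← hPo, ← hPo, br_mul] at hbr
    have : (0 : ℝ) < (X - 1 : ℝ[X]).eval (-1) ^ 2 := by
      simp only [eval_sub, eval_X, eval_one]
      norm_num
    by_contra hcon
    push Not at hcon
    have := mul_nonneg this.le hcon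
    linarith

/-- The initial state. -/
theorem init_state {G H : SimpleGraph V} [DecidableRel G.Adj] {C : Finset V} {u v : V} {q : PP}
    (huC : u ∉ C) (hvC : v ∉ C) (huv : u ≠ v) (hC : C.Nonempty)
    (hq : q = if s(u, v) ∈ G.edgeFinset then (0, 1) else (1, 1))
    (hGH : ∀ x ∈ C, ∀ y, G.Adj x y → H.Adj x y)
    (hcut : ∀ z : V, Cut G.Adj (Set.univ \ {z})) :
    St H C C u v q (w0 G.edgeFinset) (Function.update (w0 G.edgeFinset) s(u, v) (1, 1))
      (fun s => if s ∈ G.edgeFinset ∧ ∃ x ∈ C, x ∈ s then {(1, 0)} else ∅) := by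
  have hnot : ∀ x ∈ C, ∀ y, s(x, y) ≠ s(u, v) := by
    intro x hx y
    apply mk_ne_left
    · rintro rfl; exact huC hx
    · rintro rfl; exact hvC hx
  have hwq : wq q u v (Function.update (w0 G.edgeFinset) s(u, v) (1, 1)) =
      w0 G.edgeFinset := by
    funext s
    by_cases h2 : s = s(u, v)
    · rw [h2]
      unfold wq
      rw [Function.update_self, Function.update_self, hq]
      unfold w0
      split_ifs <;> simp [par]
    · rw [wq_of_ne h2, Function.update_of_ne h2]
  refine ⟨subset_rfl, ?_, ?_, ?_, ?_, ?_, ?_, ?_⟩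
  · intro x hx y hy
    rw [Function.update_of_ne (hnot x hx y)]
    unfold w0
    by_cases h3 : s(x, y) ∈ G.edgeFinset
    · right; left
      rw [if_pos h3]
      refine ⟨rfl, ?_⟩
      rw [if_pos ⟨h3, x, hx, by simp⟩]
      rfl
    · left
      rw [if_neg h3]
      exact ⟨rfl, if_neg fun h => h3 h.1⟩
  · left
    rw [Function.update_self]
    refine ⟨rfl, if_neg ?_⟩
    rintro ⟨_, x, hx, hxs⟩
    rw [Sym2.mem_iff] at hxs
    rcases hxs with rfl | rfl
    · exact huC hx
    · exact hvC hx
  · intro x hx hx2
    exact absurd hx hx2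
  · intro x hx y hy hne
    rw [Function.update_of_ne (hnot x hx y)] at hne
    unfold w0 at hne
    by_cases h3 : s(x, y) ∈ G.edgeFinset
    · rw [SimpleGraph.mem_edgeFinset] at h3
      exact hGH x hx y h3
    · rw [if_neg h3] at hne
      exact absurd rfl hne
  · intro s _ hs
    rw [Function.update_of_ne hs]
  · intro z
    rw [hwq]
    have e : ({t | t ∉ C ∨ t ∈ C} \ {z} : Set V) = Set.univ \ {z} := by
      ext t
      simp only [Set.mem_sdiff, Set.mem_setOf_eq, Set.mem_univ, true_and, and_iff_right_iff_imp]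
      intro _
      tauto
    rw [e]
    intro T hT h1 h2
    obtain ⟨p, hp, r, hr, hpr⟩ := hcut z T hT h1 h2
    refine ⟨p, hp, r, hr, hpr.ne, ?_⟩
    unfold w0
    rw [if_pos (by rw [SimpleGraph.mem_edgeFinset]; exact hpr)]
    intro h
    have := congrArg Prod.fst h
    simp at this
  · intro h
    rw [h] at hC
    exact absurd hC Finset.not_nonempty_empty

/-- Cuts of a connected graph. -/
theorem cut_of_connected {G : SimpleGraph V} {z : V}
    (h : (G.induce {w : V | w ≠ z}).Connected) : Cut G.Adj (Set.univ \ {z}) := by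
  intro T hT h1 h2
  obtain ⟨a, ha⟩ := h1
  obtain ⟨b, hb⟩ := h2
  have ha' : a ≠ z := fun e => (hT ha).2 e
  have hb' : b ≠ z := fun e => hb.1.2 e
  obtain ⟨p⟩ := h.preconnected ⟨a, ha'⟩ ⟨b, hb'⟩
  obtain ⟨d, _, hd1, hd2⟩ := p.exists_boundary_dart {t | (t : V) ∈ T} ha hb.2
  refine ⟨d.fst, hd1, d.snd, ⟨⟨Set.mem_univ _, d.snd.2⟩, hd2⟩, ?_⟩
  have := d.adj
  simpa using this

/-- The mean in Whitney's form as a logarithmic derivative. -/
theorem eps_eq {ε : Finset (Sym2 V) → ℝ}
    (hε : ∀ E : Finset (Sym2 V), ε E =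
        (∑ A ∈ E.powerset,
            ((Fintype.card V : ℝ) -
              (Nat.card (SimpleGraph.fromEdgeSet (A : Set (Sym2 V))).ConnectedComponent : ℝ)) *
            (-1 : ℝ) ^ (A.card + Fintype.card V +
              Nat.card (SimpleGraph.fromEdgeSet (A : Set (Sym2 V))).ConnectedComponent)) /
        (∑ A ∈ E.powerset,
            (-1 : ℝ) ^ (A.card + Fintype.card V +
              Nat.card (SimpleGraph.fromEdgeSet (A : Set (Sym2 V))).ConnectedComponent)))
    {E : Finset (Sym2 V)} (hE : ∀ s ∈ E, ¬ s.IsDiag) :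
    ε E = Fintype.card V + (derivative (Zp E)).eval (-1) / (Zp E).eval (-1) := by
  have h1 : (Zp E).eval (-1) = ∑ A ∈ E.powerset, (-1 : ℝ) ^ A.card * (-1) ^ nc A := by
    unfold Zp
    rw [eval_finsetSum]
    simp
  have h2 : (derivative (Zp E)).eval (-1) =
      -∑ A ∈ E.powerset, (nc A : ℝ) * ((-1 : ℝ) ^ A.card * (-1) ^ nc A) := by
    unfold Zp
    rw [derivative_sum, eval_finsetSum, ← Finset.sum_neg_distrib]
    refine Finset.sum_congr rfl fun A _ => ?_
    rw [derivative_C_mul, derivative_X_pow, eval_mul, eval_C, eval_mul, eval_pow, eval_X]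
    rcases Nat.eq_zero_or_pos (nc A) with h | h
    · simp [h]
    · obtain ⟨m, hm⟩ : ∃ m, nc A = m + 1 := ⟨nc A - 1, by omega⟩
      rw [hm]
      simp only [Nat.add_sub_cancel, pow_succ, map_natCast, eval_natCast]
      ring
  have hpos := Zp_pos hE
  have hne : (Zp E).eval (-1) ≠ 0 := by
    intro h; rw [h, mul_zero] at hpos; exact lt_irrefl _ hpos
  have hu : ((-1 : ℝ) ^ Fintype.card V) ≠ 0 := by positivity
  have h3 : ∑ A ∈ E.powerset,
            (-1 : ℝ) ^ (A.card + Fintype.card V +
              Nat.card (SimpleGraph.fromEdgeSet (A : Set (Sym2 V))).ConnectedComponent) =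
      (-1 : ℝ) ^ Fintype.card V * (Zp E).eval (-1) := by
    rw [h1, Finset.mul_sum]
    refine Finset.sum_congr rfl fun A _ => ?_
    rw [pow_add, pow_add]
    unfold nc
    ring
  have h4 : ∑ A ∈ E.powerset,
            ((Fintype.card V : ℝ) -
              (Nat.card (SimpleGraph.fromEdgeSet (A : Set (Sym2 V))).ConnectedComponent : ℝ)) *
            (-1 : ℝ) ^ (A.card + Fintype.card V +
              Nat.card (SimpleGraph.fromEdgeSet (A : Set (Sym2 V))).ConnectedComponent) =
      (-1 : ℝ) ^ Fintype.card V *
        (Fintype.card V * (Zp E).eval (-1) + (derivative (Zp E)).eval (-1)) := by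
    rw [h1, h2, Finset.mul_sum, ← Finset.sum_neg_distrib, ← Finset.sum_add_distrib,
      Finset.mul_sum]
    refine Finset.sum_congr rfl fun A _ => ?_
    rw [pow_add, pow_add]
    unfold nc
    ring
  rw [hε, h3, h4, mul_div_mul_left _ _ hu]
  field_simp

/-- Deleting an edge with a negative bracket lowers the mean. -/
theorem lower_of_br {E : Finset (Sym2 V)} (hE : ∀ s ∈ E, ¬ s.IsDiag) {e : Sym2 V}
    (h : br (Zp (E.erase e) - Zp E) (Zp E) < 0) :
    (derivative (Zp (E.erase e))).eval (-1) / (Zp (E.erase e)).eval (-1) <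
      (derivative (Zp E)).eval (-1) / (Zp E).eval (-1) := by
  have p1 := Zp_pos hE
  have p2 := Zp_pos (E := E.erase e) fun s hs => hE s (Finset.mem_of_mem_erase hs)
  unfold br at h
  rw [derivative_sub, eval_sub, eval_sub] at h
  set a := (Zp (E.erase e)).eval (-1)
  set b := (Zp E).eval (-1)
  set a' := (derivative (Zp (E.erase e))).eval (-1)
  set b' := (derivative (Zp E)).eval (-1)
  set s := (-1 : ℝ) ^ Fintype.card V with hs
  have hs2 : s * s = 1 := by rw [hs, ← mul_pow]; norm_num
  have hs0 : s ≠ 0 := by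
    intro h; rw [h] at hs2; norm_num at hs2
  have e1 : a' / a = (s * a') / (s * a) := by rw [mul_div_mul_left _ _ hs0]
  have e2 : b' / b = (s * b') / (s * b) := by rw [mul_div_mul_left _ _ hs0]
  rw [e1, e2, div_lt_div_iff₀ p2 p1]
  have e3 : s * a' * (s * b) = a' * b := by
    calc s * a' * (s * b) = (s * s) * (a' * b) := by ring
      _ = a' * b := by rw [hs2, one_mul]
  have e4 : s * b' * (s * a) = b' * a := by
    calc s * b' * (s * a) = (s * s) * (b' * a) := by ring
      _ = b' * a := by rw [hs2, one_mul]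
  rw [e3, e4]
  linarith

/-- The main theorem in terms of the polynomials. -/
theorem main_poly {G H : SimpleGraph V} [DecidableRel G.Adj] {C : Finset V} {u v : V}
    {f : V → ℕ} (hf : Function.Injective f) (huC : u ∉ C) (hvC : v ∉ C) (huv : u ≠ v)
    (hC : C.Nonempty)
    (hGH : ∀ x ∈ C, ∀ y, G.Adj x y → H.Adj x y)
    (h2 : ∀ x ∈ C, ∀ y, H.Adj x y → y ∈ C ∨ y = u ∨ y = v)
    (h3 : ∀ x ∈ C, ∀ a b c, Later H C f x a → Later H C f x b → Later H C f x c →
      a = b ∨ a = c ∨ b = c)
    (h4 : ∀ x ∈ C, ∀ a b, Later H C f x a → Later H C f x b → a ≠ b → H.Adj a b)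
    (hcut : ∀ z : V, Cut G.Adj (Set.univ \ {z}))
    (henv : G.Adj u v ∨
      (derivative (Zp (G.edgeFinset.filter fun s => ∀ x ∈ C, x ∉ s))).eval (-1) /
          (Zp (G.edgeFinset.filter fun s => ∀ x ∈ C, x ∉ s)).eval (-1) ≤
        (derivative (Zp (insert s(u, v)
            (G.edgeFinset.filter fun s => ∀ x ∈ C, x ∉ s)))).eval (-1) /
          (Zp (insert s(u, v) (G.edgeFinset.filter fun s => ∀ x ∈ C, x ∉ s))).eval (-1)) :
    ∃ e ∈ G.edgeFinset, (∃ x ∈ C, x ∈ e) ∧
      br (Zp (G.edgeFinset.erase e) - Zp G.edgeFinset) (Zp G.edgeFinset) < 0 := by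
  classical
  set E := G.edgeFinset with hEdef
  have hE : ∀ s ∈ E, ¬ s.IsDiag := by
    intro s hs
    rw [hEdef, SimpleGraph.mem_edgeFinset] at hs
    exact G.not_isDiag_of_mem_edgeSet hs
  set F := E.filter fun s => ∀ x ∈ C, x ∉ s with hF
  have hFd : ∀ s ∈ F, ¬ s.IsDiag := fun s hs => hE s (Finset.mem_filter.mp hs).1
  have huvF : s(u, v) ∈ F ↔ s(u, v) ∈ E := by
    rw [hF, Finset.mem_filter, and_iff_left_iff_imp]
    intro _ x hx hxs
    rw [Sym2.mem_iff] at hxs
    rcases hxs with rfl | rfl
    · exact huC hx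
    · exact hvC hx
  have huvp : s(u, v) ∈ prs V := mem_prs.mpr huv
  set q : PP := if s(u, v) ∈ E then (0, 1) else (1, 1) with hq
  have hq2 : q = (0, 1) ∨ q = (1, 1) := by
    rw [hq]; split_ifs
    · exact Or.inl rfl
    · exact Or.inr rfl
  have hconcl : Concl q u v (Function.update (w0 E) s(u, v) (1, 1))
      (fun s => if s ∈ E ∧ ∃ x ∈ C, x ∈ s then {(1, 0)} else ∅) := by
    refine main_ind (w1 := w0 E) hf huC hvC huv hq2 h2 h3 h4 ?_ C.card C rfl _ _
      (init_state huC hvC huv hC hq hGH hcut)
    intro w Φ st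
    by_cases hmem : s(u, v) ∈ E
    · have hq3 : q = (0, 1) := by rw [hq, if_pos hmem]
      have hmF : s(u, v) ∈ F := huvF.mpr hmem
      refine base_concl huv st (fun p => p.2 * Zp F) (0, Zp F) ?_ ?_ (yo := 1) (Do := 0) ?_
        zero_le_one le_rfl (by norm_num)
      · intro p k
        rw [← hF, col_split _ huvp, hq3]
        have e1 : Function.update (w0 F) s(u, v) (0, 1) = w0 F := by
          funext s
          by_cases h : s = s(u, v)
          · rw [h, Function.update_self]
            unfold w0
            rw [if_pos hmF]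
          · rw [Function.update_of_ne h]
        rw [e1, col_w0 hFd]
        simp [par]
      · intro p
        simp only [prg]
        ring
      · refine ⟨?_, ?_, ?_⟩
        · have := Zp_pos hFd
          intro h
          simp only at h
          rw [h, mul_zero] at this
          exact lt_irrefl _ this
        · simp
        · simp
    · have hq3 : q = (1, 1) := by rw [hq, if_neg hmem]
      have hmF : s(u, v) ∉ F := fun h => hmem (huvF.mp h)
      have hadj : ¬ G.Adj u v := by
        intro h
        exact hmem (by rw [hEdef, SimpleGraph.mem_edgeFinset]; exact h)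
      have henv' := henv.resolve_left hadj
      obtain ⟨yo, Do, j, j0, j1, jD⟩ := env_jet huv hmF hFd henv'
      refine base_concl huv st
        (fun p => p.1 * (Zp F - Zp (insert s(u, v) F)) + p.2 * Zp (insert s(u, v) F))
        (env F (insert s(u, v) F)) ?_ ?_ j j0 j1 jD
      · intro p k
        have hF' : ∀ s ∈ insert s(u, v) F, ¬ s.IsDiag := by
          intro s hs
          rw [Finset.mem_insert] at hs
          rcases hs with rfl | hs
          · simpa using huv
          · exact hFd s hs
        have e0 : ∀ s, s ≠ s(u, v) → w0 F s = w0 (insert s(u, v) F) s := by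
          intro s hs
          unfold w0
          simp only [Finset.mem_insert, hs, false_or]
        have e1 : Function.update (w0 F) s(u, v) (0, 1) = w0 (insert s(u, v) F) := by
          funext s
          by_cases h : s = s(u, v)
          · rw [h, Function.update_self]
            unfold w0
            rw [if_pos (Finset.mem_insert_self _ _)]
          · rw [Function.update_of_ne h]
            exact e0 s h
        have e2 : Function.update (w0 F) s(u, v) (1, 0) =
            Function.update (w0 (insert s(u, v) F)) s(u, v) (1, 0) := by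
          funext s
          by_cases h : s = s(u, v)
          · rw [h, Function.update_self, Function.update_self]
          · rw [Function.update_of_ne h, Function.update_of_ne h]
            exact e0 s h
        rw [← hF, col_split _ huvp, hq3, e1, e2, col_w0 hF',
          col_w0_update hF' (Finset.mem_insert_self _ _), Finset.erase_insert hmF]
        simp [par]
      · intro p
        simp only [prg, env]
        ring
  -- translate back
  obtain ⟨s, hs, c, hc, m, P, R, hP, hR, hbr⟩ := hconcl
  by_cases hsE : s ∈ E ∧ ∃ x ∈ C, x ∈ s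
  · simp only [hsE, and_self, if_true, Set.mem_singleton_iff] at hc
    subst hc
    refine ⟨s, hsE.1, hsE.2, ?_⟩
    have hne : s ≠ s(u, v) := by
      rintro rfl
      obtain ⟨x, hx, hxs⟩ := hsE.2
      rw [Sym2.mem_iff] at hxs
      rcases hxs with rfl | rfl
      · exact huC hx
      · exact hvC hx
    have hw1 : wq q u v (Function.update (w0 E) s(u, v) (1, 1)) = w0 E := by
      funext t
      by_cases h : t = s(u, v)
      · rw [h]
        unfold wq
        rw [Function.update_self, Function.update_self, hq]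
        unfold w0
        split_ifs <;> simp [par]
      · rw [wq_of_ne h, Function.update_of_ne h]
    have hw2 : wq q u v (Function.update (Function.update (w0 E) s(u, v) (1, 1)) s (1, 0)) =
        Function.update (w0 E) s (1, 0) := by
      funext t
      by_cases h : t = s(u, v)
      · rw [h]
        unfold wq
        rw [Function.update_self, Function.update_of_ne hne.symm, Function.update_self, hq,
          Function.update_of_ne hne.symm]
        unfold w0
        split_ifs <;> simp [par]
      · rw [wq_of_ne h]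
        by_cases h' : t = s
        · rw [h', Function.update_self, Function.update_self]
        · rw [Function.update_of_ne h', Function.update_of_ne h', Function.update_of_ne h]
    have hP2 : P = X ^ m * Zp E := by
      apply poly_ext
      intro k
      rw [← hP, hw1, col_w0 hE, eval_mul, eval_pow, eval_X]
    have hR2 : R = X ^ m * (Zp (E.erase s) - Zp E) := by
      apply poly_ext
      intro k
      rw [← hR, hw2, col_w0_update hE hsE.1, eval_mul, eval_pow, eval_X]
    rw [hP2, hR2, br_mul] at hbr
    have h1 : (0 : ℝ) < (X ^ m : ℝ[X]).eval (-1) ^ 2 := by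
      rw [eval_pow, eval_X]
      positivity
    by_contra hcon
    push Not at hcon
    have := mul_nonneg h1.le hcon
    linarith
  · simp only [hsE, if_false, Set.mem_empty_iff_false] at hc

end Pool.Agent.BCF
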