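import Pool.Agent.BCF.NP

/-!
# Weighted colouring sums
-/

open Polynomial

namespace Pool.Agent.BCF

variable {V : Type} [Fintype V] [DecidableEq V]

/-- The off-diagonal pairs. -/
def prs (V : Type) [Fintype V] [DecidableEq V] : Finset (Sym2 V) :=
  Finset.univ.filter fun s => ¬ s.IsDiag

/-- The factor of the pair `s` in the colouring `σ`. -/
noncomputable def tm (w : Sym2 V → PP) (k : ℕ) (σ : V → Fin k) (s : Sym2 V) : ℝ :=
  if (s.map σ).IsDiag then (w s).1.eval (k : ℝ) else (w s).2.eval (k : ℝ)

/-- The weighted sum over all colourings with `k` colours. -/
noncomputable def col (w : Sym2 V → PP) (k : ℕ) : ℝ :=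
  ∑ σ : V → Fin k, ∏ s ∈ prs V, tm w k σ s

theorem mem_prs {x y : V} : s(x, y) ∈ prs V ↔ x ≠ y := by
  simp [prs]

omit [Fintype V] [DecidableEq V] in
theorem tm_mk (w : Sym2 V → PP) (k : ℕ) (σ : V → Fin k) (x y : V) :
    tm w k σ s(x, y) = if σ x = σ y then (w s(x, y)).1.eval (k : ℝ)
      else (w s(x, y)).2.eval (k : ℝ) := by
  simp [tm]

/-- Averaging over the colour of one vertex. -/
theorem sum_update {k : ℕ} (v : V) (F : (V → Fin k) → ℝ) :
    (k : ℝ) * ∑ σ : V → Fin k, F σ = ∑ σ : V → Fin k, ∑ c : Fin k, F (Function.update σ v c) := by
  have h1 : ∑ σ : V → Fin k, ∑ c : Fin k, F (Function.update σ v c) =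
      ∑ q : (V → Fin k) × Fin k, F (Function.update q.1 v q.2) := by
    rw [Fintype.sum_prod_type]
  have h2 : (k : ℝ) * ∑ σ : V → Fin k, F σ = ∑ q : (V → Fin k) × Fin k, F q.1 := by
    rw [Fintype.sum_prod_type]
    simp [Finset.mul_sum]
  rw [h1, h2]
  let e : (V → Fin k) × Fin k ≃ (V → Fin k) × Fin k :=
    { toFun := fun q => (Function.update q.1 v q.2, q.1 v)
      invFun := fun q => (Function.update q.1 v q.2, q.1 v)
      left_inv := fun q => by simp
      right_inv := fun q => by simp }
  exact (Equiv.sum_comp e (fun q => F q.1)).symm

/-- Elimination of the vertex `x` with the neighbours `a`, `b`. -/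
noncomputable def elim (w : Sym2 V → PP) (x a b : V) : Sym2 V → PP := fun s =>
  if s = s(x, a) ∨ s = s(x, b) then (1, 1)
  else if s = s(a, b) then par (w s) (ser (w s(x, a)) (w s(x, b))) else w s

theorem sum_colours {k : ℕ} (i j : Fin k) (A B A' B' : ℝ) :
    ∑ c : Fin k, (if c = i then A else B) * (if c = j then A' else B') =
      if i = j then A * A' + ((k : ℝ) - 1) * (B * B')
      else A * B' + B * A' + ((k : ℝ) - 2) * (B * B') := by
  have h : ∀ c : Fin k, (if c = i then A else B) * (if c = j then A' else B') =
      B * B' + (if c = i then (A - B) * B' else 0) + (if c = j then B * (A' - B') else 0) +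
        (if c = i then (if i = j then (A - B) * (A' - B') else 0) else 0) := by
    intro c
    by_cases h1 : c = i <;> by_cases h2 : c = j
    · subst h1; subst h2; simp; ring
    · subst h1; simp [h2]; ring
    · subst h2
      simp [h1]; ring
    · simp [h1, h2]
  rw [Finset.sum_congr rfl fun c _ => h c]
  simp only [Finset.sum_add_distrib, Finset.sum_const, Finset.card_univ, Fintype.card_fin,
    nsmul_eq_mul, Finset.sum_ite_eq', Finset.mem_univ, if_true]
  by_cases h1 : i = j
  · simp [h1]; ring
  · simp [h1]; ring

theorem elim_col {w : Sym2 V → PP} {x a b : V} (hxa : x ≠ a) (hxb : x ≠ b) (hab : a ≠ b)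
    (hw : ∀ c, c ≠ x → c ≠ a → c ≠ b → w s(x, c) = (1, 1)) (k : ℕ) :
    (k : ℝ) * col w k = col (elim w x a b) k := by
  unfold col
  rw [sum_update x]
  refine Finset.sum_congr rfl fun σ _ => ?_
  -- the factors which do not involve `x`
  set g : Sym2 V → ℝ := fun s => if x ∈ s then 1 else tm w k σ s with hg
  have key1 : ∀ c : Fin k, ∏ s ∈ prs V, tm w k (Function.update σ x c) s =
      (∏ s ∈ prs V, g s) *
        ((if c = σ a then (w s(x, a)).1.eval (k : ℝ) else (w s(x, a)).2.eval (k : ℝ)) *
          (if c = σ b then (w s(x, b)).1.eval (k : ℝ) else (w s(x, b)).2.eval (k : ℝ))) := by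
    intro c
    set α := (if c = σ a then (w s(x, a)).1.eval (k : ℝ) else (w s(x, a)).2.eval (k : ℝ)) with hα
    set β := (if c = σ b then (w s(x, b)).1.eval (k : ℝ) else (w s(x, b)).2.eval (k : ℝ)) with hβ
    have e1 : ∏ s ∈ prs V, (if s = s(x, a) then α else 1) = α := by
      rw [Finset.prod_ite_eq']
      simp [mem_prs, hxa]
    have e2 : ∏ s ∈ prs V, (if s = s(x, b) then β else 1) = β := by
      rw [Finset.prod_ite_eq']
      simp [mem_prs, hxb]
    conv_rhs => rw [← e1, ← e2]
    rw [← Finset.prod_mul_distrib, ← Finset.prod_mul_distrib]
    refine Finset.prod_congr rfl fun s hs => ?_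
    induction s using Sym2.ind with
    | _ p q =>
      rw [mem_prs] at hs
      rw [tm_mk]
      by_cases hp : p = x
      · subst hp
        have hq : q ≠ p := fun h => hs h.symm
        have hg1 : g s(p, q) = 1 := by simp [hg]
        rw [hg1, one_mul]
        simp only [Function.update_self, Function.update_of_ne hq]
        by_cases hqa : q = a
        · subst hqa
          have : s(p, q) ≠ s(p, b) := by
            intro h
            rw [Sym2.eq_iff] at h
            rcases h with h | h
            · exact hab h.2
            · exact hq h.2
          simp [this, hα]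
        · by_cases hqb : q = b
          · subst hqb
            have : s(p, q) ≠ s(p, a) := by
              intro h
              rw [Sym2.eq_iff] at h
              rcases h with h | h
              · exact hab h.2.symm
              · exact hq h.2
            simp [this, hβ]
          · have h1 : s(p, q) ≠ s(p, a) := by
              intro h
              rw [Sym2.eq_iff] at h
              rcases h with h | h
              · exact hqa h.2
              · exact hq h.2
            have h2 : s(p, q) ≠ s(p, b) := by
              intro h
              rw [Sym2.eq_iff] at h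
              rcases h with h | h
              · exact hqb h.2
              · exact hq h.2
            rw [hw q hq hqa hqb]
            simp [h1, h2]
      · by_cases hq : q = x
        · subst hq
          have hg1 : g s(p, q) = 1 := by simp [hg]
          rw [hg1, one_mul]
          simp only [Function.update_self, Function.update_of_ne hp]
          by_cases hpa : p = a
          · subst hpa
            have : s(p, q) ≠ s(q, b) := by
              intro h
              rw [Sym2.eq_iff] at h
              rcases h with h | h
              · exact hp h.1
              · exact hab h.1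
            rw [Sym2.eq_swap]
            have h3 : s(q, p) ≠ s(q, b) := by rwa [Sym2.eq_swap]
            simp [h3, hα, eq_comm]
          · by_cases hpb : p = b
            · subst hpb
              have : s(p, q) ≠ s(q, a) := by
                intro h
                rw [Sym2.eq_iff] at h
                rcases h with h | h
                · exact hp h.1
                · exact hab h.1.symm
              rw [Sym2.eq_swap]
              have h3 : s(q, p) ≠ s(q, a) := by rwa [Sym2.eq_swap]
              simp [h3, hβ, eq_comm]
            · have h1 : s(p, q) ≠ s(q, a) := by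
                intro h
                rw [Sym2.eq_iff] at h
                rcases h with h | h
                · exact hp h.1
                · exact hpa h.1
              have h2 : s(p, q) ≠ s(q, b) := by
                intro h
                rw [Sym2.eq_iff] at h
                rcases h with h | h
                · exact hp h.1
                · exact hpb h.1
              have h3 : w s(p, q) = (1, 1) := by
                rw [Sym2.eq_swap]; exact hw p hp hpa hpb
              rw [h3]
              simp [h1, h2]
        · have hg1 : g s(p, q) = tm w k σ s(p, q) := by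
            have : x ∉ s(p, q) := by
              rw [Sym2.mem_iff]
              rintro (h | h)
              · exact hp h.symm
              · exact hq h.symm
            simp only [hg, this, if_false]
          have h1 : s(p, q) ≠ s(x, a) := by
            intro h
            rw [Sym2.eq_iff] at h
            rcases h with h | h
            · exact hp h.1
            · exact hq h.2
          have h2 : s(p, q) ≠ s(x, b) := by
            intro h
            rw [Sym2.eq_iff] at h
            rcases h with h | h
            · exact hp h.1
            · exact hq h.2
          rw [hg1, tm_mk]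
          simp [h1, h2, Function.update_of_ne hp, Function.update_of_ne hq]
  have key2 : ∏ s ∈ prs V, tm (elim w x a b) k σ s = (∏ s ∈ prs V, g s) *
      (if σ a = σ b then (ser (w s(x, a)) (w s(x, b))).1.eval (k : ℝ)
        else (ser (w s(x, a)) (w s(x, b))).2.eval (k : ℝ)) := by
    set γ := (if σ a = σ b then (ser (w s(x, a)) (w s(x, b))).1.eval (k : ℝ)
        else (ser (w s(x, a)) (w s(x, b))).2.eval (k : ℝ)) with hγ
    have e1 : ∏ s ∈ prs V, (if s = s(a, b) then γ else 1) = γ := by
      rw [Finset.prod_ite_eq']
      simp [mem_prs, hab]
    conv_rhs => rw [← e1]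
    rw [← Finset.prod_mul_distrib]
    refine Finset.prod_congr rfl fun s hs => ?_
    induction s using Sym2.ind with
    | _ p q =>
      rw [mem_prs] at hs
      by_cases hx : x ∈ s(p, q)
      · have hg1 : g s(p, q) = 1 := by simp only [hg, hx, if_true]
        have h3 : s(p, q) ≠ s(a, b) := by
          intro h
          rw [h, Sym2.mem_iff] at hx
          rcases hx with h | h
          · exact hxa h
          · exact hxb h
        have h4 : elim w x a b s(p, q) = (1, 1) := by
          unfold elim
          by_cases h5 : s(p, q) = s(x, a) ∨ s(p, q) = s(x, b)
          · rw [if_pos h5]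
          · rw [if_neg h5, if_neg h3]
            push Not at h5
            rw [Sym2.mem_iff] at hx
            rcases hx with rfl | rfl
            · apply hw
              · exact fun h => hs h.symm
              · rintro rfl; exact h5.1 rfl
              · rintro rfl; exact h5.2 rfl
            · rw [Sym2.eq_swap]
              apply hw
              · exact hs
              · rintro rfl; exact h5.1 Sym2.eq_swap
              · rintro rfl; exact h5.2 Sym2.eq_swap
        rw [hg1, if_neg h3, tm_mk, h4]
        simp
      · have hg1 : g s(p, q) = tm w k σ s(p, q) := by simp only [hg, hx, if_false]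
        have h5 : ¬ (s(p, q) = s(x, a) ∨ s(p, q) = s(x, b)) := by
          rintro (h | h) <;> exact hx (by rw [h]; simp)
        by_cases h3 : s(p, q) = s(a, b)
        · have h4 : elim w x a b s(p, q) =
              par (w s(p, q)) (ser (w s(x, a)) (w s(x, b))) := by
            unfold elim
            rw [if_neg h5, if_pos h3]
          rw [hg1, if_pos h3, h3, tm_mk, tm_mk, ← h3, h4, h3, hγ]
          by_cases h6 : σ a = σ b
          · simp only [h6, if_true, par, eval_mul]
          · simp only [h6, if_false, par, eval_mul]
        · have h4 : elim w x a b s(p, q) = w s(p, q) := by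
            unfold elim
            rw [if_neg h5, if_neg h3]
          rw [hg1, if_neg h3, tm_mk, tm_mk, h4, mul_one]
  rw [key2, Finset.sum_congr rfl fun c _ => key1 c, ← Finset.mul_sum, sum_colours]
  congr 1
  by_cases h : σ a = σ b
  · simp [h, ser]
  · simp [h, ser]

end Pool.Agent.BCF
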