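import Pool.Agent.BCF.Chrom

/-!
# Elimination of vertices with two neighbours
-/

open Polynomial

namespace Pool.Agent.BCF

variable {V : Type} [Fintype V] [DecidableEq V]

/-- The three kinds of pairs. -/
def Tri (p : PP) (Φ : Set PP) : Prop := EmptyP p Φ ∨ RealP p Φ ∨ NP p Φ

theorem NP_ne {p : PP} {Φ : Set PP} (h : NP p Φ) : p ≠ (1, 1) := by
  rintro rfl
  obtain ⟨y, z, ⟨_, h2, _⟩, h3, _⟩ := h
  simp at h2
  linarith

theorem Real_ne {p : PP} {Φ : Set PP} (h : RealP p Φ) : p ≠ (1, 1) := by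
  rintro rfl
  have := congrArg Prod.fst h.1
  simp at this

theorem Tri.nonempty {p : PP} {Φ : Set PP} (h : Tri p Φ) (hp : p ≠ (1, 1)) :
    RealP p Φ ∨ NP p Φ := by
  rcases h with h | h
  · exact absurd h.1 hp
  · exact h

theorem Tri.empty {p : PP} {Φ : Set PP} (h : Tri p Φ) (hp : p = (1, 1)) : Φ = ∅ := by
  rcases h with h | h | h
  · exact h.2
  · exact absurd hp (Real_ne h)
  · exact absurd hp (NP_ne h)

/-- Connectedness of `K` on `S`, in the form of cuts. -/
def Cut (K : V → V → Prop) (S : Set V) : Prop :=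
  ∀ T : Set V, T ⊆ S → T.Nonempty → (S \ T).Nonempty → ∃ p ∈ T, ∃ r ∈ S \ T, K p r

/-- The network `q` in parallel at the pair `uv`. -/
noncomputable def wq (q : PP) (u v : V) (w : Sym2 V → PP) : Sym2 V → PP :=
  Function.update w s(u, v) (par (w s(u, v)) q)

/-- The edge functionals after the elimination of a vertex. -/
def elimF (w : Sym2 V → PP) (Φ : Sym2 V → Set PP) (x a b : V) : Sym2 V → Set PP := fun s =>
  if s = s(x, a) ∨ s = s(x, b) then ∅
  else if s = s(a, b) then
    parF (w s(a, b)) (Φ s(a, b)) (ser (w s(x, a)) (w s(x, b)))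
      (serF (w s(x, a)) (Φ s(x, a)) (w s(x, b)) (Φ s(x, b)))
  else Φ s

omit [Fintype V] in
theorem wq_of_ne {q : PP} {u v : V} {w : Sym2 V → PP} {s : Sym2 V} (h : s ≠ s(u, v)) :
    wq q u v w s = w s := by
  unfold wq
  rw [Function.update_of_ne h]

omit [Fintype V] [DecidableEq V] in
theorem mk_ne_left {x u v y : V} (hu : x ≠ u) (hv : x ≠ v) : s(x, y) ≠ s(u, v) := by
  intro h
  rw [Sym2.eq_iff] at h
  rcases h with h | h
  · exact hu h.1
  · exact hv h.1

omit [Fintype V] [DecidableEq V] in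
theorem mk_ne_right {x a y : V} (hx : x ≠ a) (hy : y ≠ a) : s(x, y) ≠ s(x, a) := by
  intro h
  rw [Sym2.eq_iff] at h
  rcases h with h | h
  · exact hy h.2
  · exact hx h.1

omit [Fintype V] in
theorem elim_comm (w : Sym2 V → PP) (x a b : V) : elim w x a b = elim w x b a := by
  funext s
  unfold elim
  rw [ser_comm (w s(x, a)), Sym2.eq_swap (a := a)]
  congr 1
  exact propext or_comm

omit [Fintype V] in
theorem elim_wq {q : PP} {u v : V} {w : Sym2 V → PP} {x a b : V} (hu : x ≠ u) (hv : x ≠ v) :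
    elim (wq q u v w) x a b = wq q u v (elim w x a b) := by
  funext s
  by_cases h1 : s = s(x, a) ∨ s = s(x, b)
  · have h2 : s ≠ s(u, v) := by
      rcases h1 with rfl | rfl <;> exact mk_ne_left hu hv
    rw [wq_of_ne h2]
    unfold elim
    rw [if_pos h1, if_pos h1]
  · by_cases h3 : s = s(a, b)
    · by_cases h2 : s = s(u, v)
      · have e1 : wq q u v (elim w x a b) s = par (elim w x a b s) q := by
          unfold wq
          rw [h2, Function.update_self]
        have e2 : wq q u v w s = par (w s) q := by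
          unfold wq
          rw [h2, Function.update_self]
        rw [e1]
        unfold elim
        rw [if_neg h1, if_pos h3, if_neg h1, if_pos h3, e2, wq_of_ne (mk_ne_left hu hv),
          wq_of_ne (mk_ne_left hu hv)]
        ext1 <;> simp only [par] <;> ring
      · rw [wq_of_ne h2]
        unfold elim
        rw [if_neg h1, if_pos h3, if_neg h1, if_pos h3, wq_of_ne (mk_ne_left hu hv),
          wq_of_ne (mk_ne_left hu hv), wq_of_ne h2]
    · by_cases h2 : s = s(u, v)
      · have e1 : wq q u v (elim w x a b) s = par (elim w x a b s) q := by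
          unfold wq
          rw [h2, Function.update_self]
        have e2 : wq q u v w s = par (w s) q := by
          unfold wq
          rw [h2, Function.update_self]
        rw [e1]
        unfold elim
        rw [if_neg h1, if_neg h3, if_neg h1, if_neg h3, e2]
      · rw [wq_of_ne h2]
        unfold elim
        rw [if_neg h1, if_neg h3, if_neg h1, if_neg h3, wq_of_ne h2]

omit [Fintype V] in
theorem elim_update_ab {w : Sym2 V → PP} {x a b : V} (ha : x ≠ a) (hb : x ≠ b) (c : PP) :
    elim (Function.update w s(a, b) c) x a b =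
      Function.update (elim w x a b) s(a, b) (par c (ser (w s(x, a)) (w s(x, b)))) := by
  funext s
  have n1 : s(x, a) ≠ s(a, b) := mk_ne_left ha hb
  have n2 : s(x, b) ≠ s(a, b) := mk_ne_left ha hb
  by_cases h3 : s = s(a, b)
  · have h1 : ¬ (s = s(x, a) ∨ s = s(x, b)) := by
      rintro (h | h)
      · exact n1 (h.symm.trans h3)
      · exact n2 (h.symm.trans h3)
    rw [h3, Function.update_self]
    rw [h3] at h1
    unfold elim
    rw [if_neg h1, if_pos rfl, Function.update_self, Function.update_of_ne n1,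
      Function.update_of_ne n2]
  · rw [Function.update_of_ne h3]
    unfold elim
    rw [if_neg h3, if_neg h3, Function.update_of_ne h3]

omit [Fintype V] in
theorem elim_update_xa {w : Sym2 V → PP} {x a b : V} (ha : x ≠ a) (hb : x ≠ b) (hab : a ≠ b)
    (c : PP) :
    elim (Function.update w s(x, a) c) x a b =
      Function.update (elim w x a b) s(a, b) (par (w s(a, b)) (ser c (w s(x, b)))) := by
  funext s
  have n1 : s(x, a) ≠ s(a, b) := mk_ne_left ha hb
  have n2 : s(x, b) ≠ s(a, b) := mk_ne_left ha hb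
  have n3 : s(x, b) ≠ s(x, a) := mk_ne_right ha hab.symm
  by_cases h3 : s = s(a, b)
  · have h1 : ¬ (s = s(x, a) ∨ s = s(x, b)) := by
      rintro (h | h)
      · exact n1 (h.symm.trans h3)
      · exact n2 (h.symm.trans h3)
    rw [h3, Function.update_self]
    rw [h3] at h1
    unfold elim
    rw [if_neg h1, if_pos rfl, Function.update_self, Function.update_of_ne n1.symm,
      Function.update_of_ne n3]
  · rw [Function.update_of_ne h3]
    unfold elim
    rw [if_neg h3, if_neg h3]
    by_cases h1 : s = s(x, a) ∨ s = s(x, b)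
    · rw [if_pos h1, if_pos h1]
    · rw [if_neg h1, if_neg h1]
      push Not at h1
      rw [Function.update_of_ne h1.1]

omit [Fintype V] in
theorem elim_update_xb {w : Sym2 V → PP} {x a b : V} (ha : x ≠ a) (hb : x ≠ b) (hab : a ≠ b)
    (c : PP) :
    elim (Function.update w s(x, b) c) x a b =
      Function.update (elim w x a b) s(a, b) (par (w s(a, b)) (ser (w s(x, a)) c)) := by
  rw [elim_comm, elim_update_xa hb ha hab.symm, elim_comm w x b a, Sym2.eq_swap (a := b),
    ser_comm c]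

omit [Fintype V] in
theorem elim_update_other {w : Sym2 V → PP} {x a b : V} {s : Sym2 V} (h1 : s ≠ s(x, a))
    (h2 : s ≠ s(x, b)) (h3 : s ≠ s(a, b)) (c : PP) :
    elim (Function.update w s c) x a b = Function.update (elim w x a b) s c := by
  funext t
  by_cases ht : t = s
  · rw [ht, Function.update_self]
    unfold elim
    rw [if_neg (by rintro (h | h); exacts [h1 h, h2 h]), if_neg h3, Function.update_self]
  · rw [Function.update_of_ne ht]
    unfold elim
    rw [Function.update_of_ne ht, Function.update_of_ne h1.symm, Function.update_of_ne h2.symm]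

/-- Some edge functional has a negative bracket. -/
def Concl (q : PP) (u v : V) (w : Sym2 V → PP) (Φ : Sym2 V → Set PP) : Prop :=
  ∃ s : Sym2 V, ¬ s.IsDiag ∧ ∃ c ∈ Φ s, ∃ (m : ℕ) (P R : ℝ[X]),
    (∀ k : ℕ, (k : ℝ) ^ m * col (wq q u v w) k = P.eval (k : ℝ)) ∧
    (∀ k : ℕ, (k : ℝ) ^ m * col (wq q u v (Function.update w s c)) k = R.eval (k : ℝ)) ∧
    br R P < 0

theorem Concl_step {q : PP} {u v : V} {w : Sym2 V → PP} {Φ : Sym2 V → Set PP} {x a b : V}
    (hu : x ≠ u) (hv : x ≠ v) (ha : x ≠ a) (hb : x ≠ b) (hab : a ≠ b)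
    (hw : ∀ c, c ≠ x → c ≠ a → c ≠ b → w s(x, c) = (1, 1))
    (hΦ : ∀ c, c ≠ x → c ≠ a → c ≠ b → Φ s(x, c) = ∅)
    (h : Concl q u v (elim w x a b) (elimF w Φ x a b)) : Concl q u v w Φ := by
  obtain ⟨s, hs, c, hc, m, P, R, h1, h2, h3⟩ := h
  have n1 : s(x, a) ≠ s(a, b) := mk_ne_left ha hb
  have n2 : s(x, b) ≠ s(a, b) := mk_ne_left ha hb
  -- the general step
  have gen : ∀ (w' : Sym2 V → PP), (∀ c, c ≠ x → c ≠ a → c ≠ b → w' s(x, c) = (1, 1)) →
      ∀ k : ℕ, (k : ℝ) ^ (m + 1) * col (wq q u v w') k =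
        (k : ℝ) ^ m * col (wq q u v (elim w' x a b)) k := by
    intro w' hw' k
    rw [pow_succ, mul_assoc, elim_col ha hb hab, elim_wq hu hv]
    intro c h1 h2 h3
    rw [wq_of_ne (mk_ne_left hu hv)]
    exact hw' c h1 h2 h3
  -- it is enough to find the functional
  suffices hsuff : ∃ s' : Sym2 V, ¬ s'.IsDiag ∧ ∃ c' ∈ Φ s',
      (∀ y, y ≠ x → y ≠ a → y ≠ b → s(x, y) ≠ s') ∧
      elim (Function.update w s' c') x a b = Function.update (elim w x a b) s c by
    obtain ⟨s', hs', c', hc', h4, h5⟩ := hsuff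
    refine ⟨s', hs', c', hc', m + 1, P, R, ?_, ?_, h3⟩
    · intro k
      rw [gen w hw, h1]
    · intro k
      rw [gen _ _ k, h5, h2]
      intro y hy1 hy2 hy3
      rw [Function.update_of_ne (h4 y hy1 hy2 hy3)]
      exact hw y hy1 hy2 hy3
  by_cases h4 : s = s(x, a) ∨ s = s(x, b)
  · unfold elimF at hc
    rw [if_pos h4] at hc
    exact absurd hc (Set.notMem_empty _)
  · by_cases h5 : s = s(a, b)
    · unfold elimF at hc
      rw [if_neg h4, if_pos h5] at hc
      rcases hc with ⟨c1, hc1, rfl⟩ | ⟨c2, hc2, rfl⟩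
      · refine ⟨s(a, b), by simpa using hab, c1, hc1, ?_, ?_⟩
        · intro y _ _ _
          exact mk_ne_left ha hb
        · rw [elim_update_ab ha hb, h5]
      · rcases hc2 with ⟨c3, hc3, rfl⟩ | ⟨c3, hc3, rfl⟩
        · refine ⟨s(x, a), by simpa using ha, c3, hc3, ?_, ?_⟩
          · intro y _ hya _
            exact mk_ne_right ha hya
          · rw [elim_update_xa ha hb hab, h5]
        · refine ⟨s(x, b), by simpa using hb, c3, hc3, ?_, ?_⟩
          · intro y _ _ hyb
            exact mk_ne_right hb hyb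
          · rw [elim_update_xb ha hb hab, h5]
    · have hc0 := hc
      unfold elimF at hc
      rw [if_neg h4, if_neg h5] at hc
      push Not at h4
      refine ⟨s, hs, c, hc, ?_, elim_update_other h4.1 h4.2 h5 c⟩
      intro y hy1 hy2 hy3 h6
      rw [← h6, hΦ y hy1 hy2 hy3] at hc
      exact absurd hc (Set.notMem_empty _)

/-- The state of the elimination: the vertices of `D` are still present. -/
structure St (H : SimpleGraph V) (C D : Finset V) (u v : V) (q : PP) (w1 : Sym2 V → PP)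
    (w : Sym2 V → PP) (Φ : Sym2 V → Set PP) : Prop where
  sub : D ⊆ C
  tri : ∀ x ∈ D, ∀ y, y ≠ x → Tri (w s(x, y)) (Φ s(x, y))
  triuv : Tri (w s(u, v)) (Φ s(u, v))
  out : ∀ x ∈ C, x ∉ D → ∀ y, y ≠ x → w s(x, y) = (1, 1)
  adj : ∀ x ∈ D, ∀ y, y ≠ x → w s(x, y) ≠ (1, 1) → H.Adj x y
  rest : ∀ s : Sym2 V, (∀ x ∈ C, x ∉ s) → s ≠ s(u, v) → w s = w1 s
  cut : ∀ z, Cut (fun p r => p ≠ r ∧ wq q u v w s(p, r) ≠ (1, 1)) ({t | t ∉ C ∨ t ∈ D} \ {z})
  fin : D = ∅ → NP (w s(u, v)) (Φ s(u, v))

omit [Fintype V] [DecidableEq V] in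
/-- Elimination keeps the cuts. -/
theorem Cut_step {K K' : V → V → Prop} {R : Set V} {x a b : V}
    (hK : ∀ p r, K p r → K r p) (hxK : ∀ c, K x c → c = a ∨ c = b)
    (hKK : ∀ p r, p ≠ x → r ≠ x → K p r → K' p r) (hab : K' a b) (hba : K' b a)
    (h : ∀ z, Cut K (R \ {z})) (z : V) : Cut K' ((R \ {x}) \ {z}) := by
  intro T hT hT1 hT2
  by_cases hz : z = x
  · subst hz
    have e : (R \ {z}) \ {z} = R \ {z} := by
      ext t
      simp only [Set.mem_sdiff, Set.mem_singleton_iff]
      tauto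
    rw [e] at hT hT2 ⊢
    obtain ⟨p, hp, r, hr, hpr⟩ := h z T hT hT1 hT2
    exact ⟨p, hp, r, hr, hKK p r (hT hp).2 hr.1.2 hpr⟩
  · have hsub : (R \ {x}) \ {z} ⊆ R \ {z} := fun t ht => ⟨ht.1.1, ht.2⟩
    by_cases hxR : x ∈ R
    · have hxT : x ∉ T := fun hx => (hT hx).1.2 rfl
      obtain ⟨t0, ht0⟩ := hT2
      obtain ⟨p, hp, r, hr, hpr⟩ := h z T (hT.trans hsub) hT1 ⟨t0, hsub ht0.1, ht0.2⟩
      have hpx : p ≠ x := fun e => hxT (e ▸ hp)
      by_cases hrx : r = x
      · obtain ⟨p1, hp1, r1, hr1, hpr1⟩ := h z (T ∪ {x}) (by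
            rintro t (ht | ht)
            · exact hsub (hT ht)
            · rw [Set.mem_singleton_iff] at ht
              subst ht
              exact ⟨hxR, fun e => hz (Set.mem_singleton_iff.mp e).symm⟩)
          (hT1.mono Set.subset_union_left)
          ⟨t0, hsub ht0.1, by
            rintro (ht | ht)
            · exact ht0.2 ht
            · exact ht0.1.1.2 ht⟩
        have hr1x : r1 ≠ x := fun e => hr1.2 (Or.inr (by rw [e]; rfl))
        have hr1T : r1 ∉ T := fun e => hr1.2 (Or.inl e)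
        by_cases hp1x : p1 = x
        · rw [hrx] at hpr
          rw [hp1x] at hpr1
          have k1 := hxK p (hK _ _ hpr)
          have k2 := hxK r1 hpr1
          refine ⟨p, hp, r1, ⟨⟨⟨hr1.1.1, hr1x⟩, hr1.1.2⟩, hr1T⟩, ?_⟩
          rcases k1 with rfl | rfl <;> rcases k2 with rfl | rfl
          · exact absurd hp hr1T
          · exact hab
          · exact hba
          · exact absurd hp hr1T
        · have hp1T : p1 ∈ T := by
            rcases hp1 with h1 | h1
            · exact h1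
            · exact absurd h1 hp1x
          exact ⟨p1, hp1T, r1, ⟨⟨⟨hr1.1.1, hr1x⟩, hr1.1.2⟩, hr1T⟩, hKK _ _ hp1x hr1x hpr1⟩
      · exact ⟨p, hp, r, ⟨⟨⟨hr.1.1, hrx⟩, hr.1.2⟩, hr.2⟩, hKK _ _ hpx hrx hpr⟩
    · have e : R \ {x} = R := by
        ext t
        simp only [Set.mem_sdiff, Set.mem_singleton_iff, and_iff_left_iff_imp]
        rintro ht rfl
        exact hxR ht
      rw [e] at hT hT2 ⊢
      obtain ⟨p, hp, r, hr, hpr⟩ := h z T hT hT1 hT2
      refine ⟨p, hp, r, hr, hKK p r ?_ ?_ hpr⟩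
      · rintro rfl; exact hxR (hT hp).1
      · rintro rfl; exact hxR hr.1.1

end Pool.Agent.BCF
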