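import Mathlib

/-!
# Two terminal calculus for the chromatic polynomial near `-1`

A two terminal network with values in the polynomials is given by the pair `(A, B)` of its weights
for equal and for different colours of the terminals, as polynomials in the number of colours.
-/

open Polynomial

namespace Pool.Agent.BCF

/-- The weights of a two terminal network: `(A, B)` for equal and for different end colours. -/
abbrev PP := ℝ[X] × ℝ[X]

/-- Series connection. -/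
noncomputable def ser (p r : PP) : PP :=
  (p.1 * r.1 + (X - 1) * (p.2 * r.2), p.1 * r.2 + p.2 * r.1 + (X - 2) * (p.2 * r.2))

/-- Parallel connection. -/
noncomputable def par (p r : PP) : PP := (p.1 * r.1, p.2 * r.2)

/-- Closing a network `p` with an environment `o`. -/
noncomputable def prg (p o : PP) : ℝ[X] := p.1 * o.1 + (X - 1) * (p.2 * o.2)

theorem ser_comm (p r : PP) : ser p r = ser r p := by
  ext1 <;> simp only [ser] <;> ring

theorem par_comm (p r : PP) : par p r = par r p := by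
  ext1 <;> simp only [par] <;> ring

theorem prg_ser (c r o : PP) : prg (ser c r) o = prg c (ser r o) := by
  simp only [prg, ser]; ring

theorem prg_par (c r o : PP) : prg (par c r) o = prg c (par r o) := by
  simp only [prg, par]; ring

/-- The bracket `f' g - f g'` at `-1`. -/
noncomputable def br (f g : ℝ[X]) : ℝ :=
  (derivative f).eval (-1) * g.eval (-1) - f.eval (-1) * (derivative g).eval (-1)

/-- The edge with functional `c` in the network `p` is bad in the environment `o`. -/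
def Bad (c p o : PP) : Prop := 0 ≤ br (prg c o) (prg p o)

/-- First order data at `-1`: `A / B` has the value `1 - y` and the derivative `-D` there. -/
def Jet (p : PP) (y D : ℝ) : Prop :=
  p.2.eval (-1) ≠ 0 ∧ p.1.eval (-1) = (1 - y) * p.2.eval (-1) ∧
    (derivative p.1).eval (-1) = (1 - y) * (derivative p.2).eval (-1) - D * p.2.eval (-1)

theorem Jet_ser {p r : PP} {y₁ D₁ y₂ D₂ : ℝ} (hp : Jet p y₁ D₁) (hr : Jet r y₂ D₂)
    (h : 0 < 1 + y₁ + y₂) :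
    Jet (ser p r) (y₁ * y₂ / (1 + y₁ + y₂))
      ((y₁ * y₂ + y₂ * (1 + y₂) * D₁ + y₁ * (1 + y₁) * D₂) / (1 + y₁ + y₂) ^ 2) := by
  obtain ⟨h1, h2, h3⟩ := hp
  obtain ⟨h4, h5, h6⟩ := hr
  have hB : (ser p r).2.eval (-1) = -((1 + y₁ + y₂) * (p.2.eval (-1) * r.2.eval (-1))) := by
    simp only [ser, eval_add, eval_mul, eval_sub, eval_X, eval_ofNat, h2, h5]
    ring
  refine ⟨?_, ?_, ?_⟩
  · rw [hB]
    exact neg_ne_zero.mpr (mul_ne_zero h.ne' (mul_ne_zero h1 h4))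
  · rw [hB]
    simp only [ser, eval_add, eval_mul, eval_sub, eval_X, eval_one, h2, h5]
    field_simp
    ring
  · rw [hB]
    simp only [ser, derivative_add, derivative_mul, derivative_sub, derivative_X, derivative_one,
      derivative_ofNat, eval_add, eval_mul, eval_sub, eval_X, eval_one, eval_zero, eval_ofNat,
      h2, h3, h5, h6]
    field_simp
    ring

theorem Jet_par {p r : PP} {y₁ D₁ y₂ D₂ : ℝ} (hp : Jet p y₁ D₁) (hr : Jet r y₂ D₂) :
    Jet (par p r) (y₁ + y₂ - y₁ * y₂) (D₁ * (1 - y₂) + D₂ * (1 - y₁)) := by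
  obtain ⟨h1, h2, h3⟩ := hp
  obtain ⟨h4, h5, h6⟩ := hr
  refine ⟨?_, ?_, ?_⟩
  · simp only [par, eval_mul]
    exact mul_ne_zero h1 h4
  · simp only [par, eval_mul, h2, h5]
    ring
  · simp only [par, derivative_mul, eval_add, eval_mul, h2, h3, h5, h6]
    ring

/-- The edge functional of a real edge. -/
theorem bad_real {o : PP} {y D : ℝ} (ho : Jet o y D) (h : Bad (1, 0) (0, 1) o) :
    1 - y ≤ 2 * D := by
  obtain ⟨h1, h2, h3⟩ := ho
  unfold Bad br prg at h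
  simp only [one_mul, zero_mul, mul_zero, add_zero, zero_add, derivative_mul, derivative_sub,
    derivative_X, derivative_one, eval_add, eval_mul, eval_sub, eval_X, eval_one,
    sub_zero, h2, h3] at h
  have h4 : 0 < o.2.eval (-1) ^ 2 := by positivity
  have h5 : 0 ≤ o.2.eval (-1) ^ 2 * (2 * D - (1 - y)) := by
    linarith [h]
  have := nonneg_of_mul_nonneg_right h5 h4
  linarith

/-! ### Real inequalities -/

theorem series_ineq {y₁ y₂ z₁ z₂ o D : ℝ} (hy₁ : 0 < y₁) (hy₁' : y₁ ≤ 1) (hy₂ : 0 < y₂)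
    (hy₂' : y₂ ≤ 1) (hz₁ : 0 ≤ z₁) (hz₂ : 0 ≤ z₂) (ho : 0 ≤ o) (ho' : o ≤ 1)
    (h1 : z₁ + 1 / 2 < (y₂ * o + o * (1 + o) * (y₂ * z₂) + y₂ * (1 + y₂) * D) / (1 + y₂ + o) ^ 2)
    (h2 : z₂ + 1 / 2 < (y₁ * o + o * (1 + o) * (y₁ * z₁) + y₁ * (1 + y₁) * D) / (1 + y₁ + o) ^ 2) :
    (1 + (1 + y₂) * z₁ + (1 + y₁) * z₂) / (1 + y₁ + y₂) + 1 / 2 < D := by
  have p1 : 0 < (1 + y₂ + o) ^ 2 := by positivity
  have p2 : 0 < (1 + y₁ + o) ^ 2 := by positivity
  rw [lt_div_iff₀ p1] at h1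
  rw [lt_div_iff₀ p2] at h2
  set z := (1 + (1 + y₂) * z₁ + (1 + y₁) * z₂) / (1 + y₁ + y₂) with hz
  have hs : 0 < 1 + y₁ + y₂ := by positivity
  have hzeq : z * (1 + y₁ + y₂) = 1 + (1 + y₂) * z₁ + (1 + y₁) * z₂ := by
    rw [hz]; field_simp
  have hz0 : 0 ≤ z := by rw [hz]; positivity
  -- divide the two hypotheses
  have q1 : (z₁ + 1 / 2) * (2 + o / (1 + y₂)) * o - y₂ / (1 + y₂) * (o * (1 + (1 + o) * z₂)) +
      (z₁ + 1 / 2) * (1 + y₂) < y₂ * D := by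
    have e : y₂ * D - ((z₁ + 1 / 2) * (2 + o / (1 + y₂)) * o -
        y₂ / (1 + y₂) * (o * (1 + (1 + o) * z₂)) + (z₁ + 1 / 2) * (1 + y₂)) =
        ((y₂ * o + o * (1 + o) * (y₂ * z₂) + y₂ * (1 + y₂) * D) -
          (z₁ + 1 / 2) * (1 + y₂ + o) ^ 2) / (1 + y₂) := by
      field_simp
      ring
    have : 0 < ((y₂ * o + o * (1 + o) * (y₂ * z₂) + y₂ * (1 + y₂) * D) -
          (z₁ + 1 / 2) * (1 + y₂ + o) ^ 2) / (1 + y₂) := by
      apply div_pos _ (by positivity)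
      linarith
    linarith
  have q2 : (z₂ + 1 / 2) * (2 + o / (1 + y₁)) * o - y₁ / (1 + y₁) * (o * (1 + (1 + o) * z₁)) +
      (z₂ + 1 / 2) * (1 + y₁) < y₁ * D := by
    have e : y₁ * D - ((z₂ + 1 / 2) * (2 + o / (1 + y₁)) * o -
        y₁ / (1 + y₁) * (o * (1 + (1 + o) * z₁)) + (z₂ + 1 / 2) * (1 + y₁)) =
        ((y₁ * o + o * (1 + o) * (y₁ * z₁) + y₁ * (1 + y₁) * D) -
          (z₂ + 1 / 2) * (1 + y₁ + o) ^ 2) / (1 + y₁) := by
      field_simp
      ring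
    have : 0 < ((y₁ * o + o * (1 + o) * (y₁ * z₁) + y₁ * (1 + y₁) * D) -
          (z₂ + 1 / 2) * (1 + y₁ + o) ^ 2) / (1 + y₁) := by
      apply div_pos _ (by positivity)
      linarith
    linarith
  have b1 : y₁ / (1 + y₁) ≤ 1 / 2 := by
    rw [div_le_iff₀ (by positivity)]; linarith
  have b2 : y₂ / (1 + y₂) ≤ 1 / 2 := by
    rw [div_le_iff₀ (by positivity)]; linarith
  have c1 : 0 ≤ o / (1 + y₁) := by positivity
  have c2 : 0 ≤ o / (1 + y₂) := by positivity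
  have e1 : y₁ / (1 + y₁) * (o * (1 + (1 + o) * z₁)) ≤ o / 2 + o * z₁ := by
    have : y₁ / (1 + y₁) * (o * (1 + (1 + o) * z₁)) ≤ 1 / 2 * (o * (1 + (1 + o) * z₁)) :=
      mul_le_mul_of_nonneg_right b1 (by positivity)
    have h3 : (1 + o) * z₁ ≤ 2 * z₁ := by nlinarith
    nlinarith
  have e2 : y₂ / (1 + y₂) * (o * (1 + (1 + o) * z₂)) ≤ o / 2 + o * z₂ := by
    have : y₂ / (1 + y₂) * (o * (1 + (1 + o) * z₂)) ≤ 1 / 2 * (o * (1 + (1 + o) * z₂)) :=
      mul_le_mul_of_nonneg_right b2 (by positivity)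
    have h3 : (1 + o) * z₂ ≤ 2 * z₂ := by nlinarith
    nlinarith
  have f1 : 2 * (z₁ + 1 / 2) * o ≤ (z₁ + 1 / 2) * (2 + o / (1 + y₂)) * o := by
    have : 0 ≤ (z₁ + 1 / 2) * (o / (1 + y₂)) * o := by positivity
    nlinarith
  have f2 : 2 * (z₂ + 1 / 2) * o ≤ (z₂ + 1 / 2) * (2 + o / (1 + y₁)) * o := by
    have : 0 ≤ (z₂ + 1 / 2) * (o / (1 + y₁)) * o := by positivity
    nlinarith
  have g : (y₁ + y₂) * (z + 1 / 2) < (y₁ + y₂) * D := by
    have k1 : 0 ≤ o * z₁ := by positivity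
    have k2 : 0 ≤ o * z₂ := by positivity
    nlinarith
  exact lt_of_mul_lt_mul_left g (by positivity)

theorem series_ineq_edge {y₁ z₁ o D : ℝ} (hy₁ : 0 < y₁) (hz₁ : 0 ≤ z₁) (ho : 0 ≤ o)
    (h1 : z₁ + 1 / 2 < (1 * o + o * (1 + o) * 0 + 1 * (1 + 1) * D) / (1 + 1 + o) ^ 2) :
    (1 + (1 + 1) * z₁ + (1 + y₁) * 0) / (1 + y₁ + 1) + 1 / 2 < D := by
  have p1 : 0 < (1 + 1 + o) ^ 2 := by positivity
  rw [lt_div_iff₀ p1] at h1
  have h2 : (1 + (1 + 1) * z₁ + (1 + y₁) * 0) / (1 + y₁ + 1) ≤ 1 / 2 + z₁ := by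
    rw [div_le_iff₀ (by positivity)]
    nlinarith
  have h3 : 4 * z₁ + 2 + o ≤ (z₁ + 1 / 2) * (1 + 1 + o) ^ 2 := by
    have k1 : 0 ≤ z₁ * o := mul_nonneg hz₁ ho
    have k2 : 0 ≤ (z₁ + 1 / 2) * o ^ 2 := by positivity
    nlinarith
  linarith

theorem series_ineq_edges {o D : ℝ} (ho : 0 ≤ o)
    (h1 : 1 - 1 * o / (1 + 1 + o) ≤
      2 * ((1 * o + o * (1 + o) * 0 + 1 * (1 + 1) * D) / (1 + 1 + o) ^ 2)) :
    (1 + (1 + 1) * 0 + (1 + 1) * 0) / (1 + 1 + 1) + 1 / 2 < D := by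
  have p1 : 0 < 1 + 1 + o := by positivity
  have h2 : (1 : ℝ) - 1 * o / (1 + 1 + o) = 2 * (2 + o) / (1 + 1 + o) ^ 2 := by
    field_simp
    ring
  have h3 : 2 * ((1 * o + o * (1 + o) * 0 + 1 * (1 + 1) * D) / (1 + 1 + o) ^ 2) =
      (2 * (o + 2 * D)) / (1 + 1 + o) ^ 2 := by
    field_simp
    ring
  rw [h2, h3, div_le_div_iff_of_pos_right (by positivity)] at h1
  linarith

theorem par_ineq {y₂ z₁ z₂ o D : ℝ} (hy₂ : 0 < y₂)
    (hy₂' : y₂ ≤ 1) (hz₂ : 0 ≤ z₂) (ho : 0 ≤ o) (h12 : z₂ ≤ z₁)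
    (h1 : z₁ + 1 / 2 < y₂ * z₂ * (1 - o) + D * (1 - y₂)) :
    z₁ + 1 / 2 < D := by
  by_contra hcon
  push Not at hcon
  have h2 : y₂ * z₂ * (1 - o) ≤ y₂ * z₁ := by
    have : y₂ * z₂ * (1 - o) ≤ y₂ * z₂ * 1 :=
      mul_le_mul_of_nonneg_left (by linarith) (by positivity)
    nlinarith
  have h3 : D * (1 - y₂) ≤ (z₁ + 1 / 2) * (1 - y₂) :=
    mul_le_mul_of_nonneg_right hcon (by linarith)
  nlinarith

end Pool.Agent.BCF
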