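import Pool.Agent.BCF.Jets

/-!
# Series parallel networks

The key property `NP`: if all edges of the network are bad in an environment `o`, then `Do` is
larger than `z + 1 / 2`.
-/

open Polynomial

namespace Pool.Agent.BCF

/-- The key property of a network `p` with the edge functionals `Φ`. -/
def NP (p : PP) (Φ : Set PP) : Prop :=
  ∃ y z : ℝ, Jet p y (y * z) ∧ 0 < y ∧ y ≤ 1 ∧ 0 ≤ z ∧
    ∀ (o : PP) (yo Do : ℝ), Jet o yo Do → 0 ≤ yo → yo ≤ 1 → (∀ c ∈ Φ, Bad c p o) →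
      z + 1 / 2 < Do

/-- A real edge. -/
def RealP (p : PP) (Φ : Set PP) : Prop := p = (0, 1) ∧ ((1, 0) : PP) ∈ Φ

/-- No edge at all. -/
def EmptyP (p : PP) (Φ : Set PP) : Prop := p = (1, 1) ∧ Φ = ∅

/-- Edge functionals of a series connection. -/
def serF (p : PP) (Φ : Set PP) (r : PP) (Ψ : Set PP) : Set PP :=
  {x | (∃ c ∈ Φ, x = ser c r) ∨ ∃ c ∈ Ψ, x = ser p c}

/-- Edge functionals of a parallel connection. -/
def parF (p : PP) (Φ : Set PP) (r : PP) (Ψ : Set PP) : Set PP :=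
  {x | (∃ c ∈ Φ, x = par c r) ∨ ∃ c ∈ Ψ, x = par p c}

theorem Jet_real : Jet ((0, 1) : PP) 1 0 := by
  refine ⟨?_, ?_, ?_⟩ <;> simp

theorem Jet_empty : Jet ((1, 1) : PP) 0 0 := by
  refine ⟨?_, ?_, ?_⟩ <;> simp

theorem bad_ser_left {c p r o : PP} (h : Bad (ser c r) (ser p r) o) : Bad c p (ser r o) := by
  unfold Bad at *
  rwa [prg_ser, prg_ser] at h

theorem bad_ser_right {c p r o : PP} (h : Bad (ser p c) (ser p r) o) : Bad c r (ser p o) := by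
  rw [ser_comm p c, ser_comm p r] at h
  exact bad_ser_left h

theorem bad_par_left {c p r o : PP} (h : Bad (par c r) (par p r) o) : Bad c p (par r o) := by
  unfold Bad at *
  rwa [prg_par, prg_par] at h

theorem bad_par_right {c p r o : PP} (h : Bad (par p c) (par p r) o) : Bad c r (par p o) := by
  rw [par_comm p c, par_comm p r] at h
  exact bad_par_left h

theorem ser_env {y o : ℝ} (hy : 0 < y) (hy' : y ≤ 1) (ho : 0 ≤ o) :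
    0 ≤ y * o / (1 + y + o) ∧ y * o / (1 + y + o) ≤ 1 := by
  refine ⟨by positivity, ?_⟩
  rw [div_le_one (by positivity)]
  nlinarith

theorem par_env {y o : ℝ} (hy : 0 < y) (hy' : y ≤ 1) (ho : 0 ≤ o) (ho' : o ≤ 1) :
    0 ≤ y + o - y * o ∧ y + o - y * o ≤ 1 := by
  constructor <;> nlinarith

theorem ser_y {y₁ y₂ : ℝ} (hy₁ : 0 < y₁) (hy₁' : y₁ ≤ 1) (hy₂ : 0 < y₂) :
    0 < y₁ * y₂ / (1 + y₁ + y₂) ∧ y₁ * y₂ / (1 + y₁ + y₂) ≤ 1 := by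
  refine ⟨by positivity, ?_⟩
  rw [div_le_one (by positivity)]
  nlinarith

theorem ser_D {y₁ y₂ z₁ z₂ : ℝ} (hy₁ : 0 < y₁) (hy₂ : 0 < y₂) :
    (y₁ * y₂ + y₂ * (1 + y₂) * (y₁ * z₁) + y₁ * (1 + y₁) * (y₂ * z₂)) / (1 + y₁ + y₂) ^ 2 =
      y₁ * y₂ / (1 + y₁ + y₂) *
        ((1 + (1 + y₂) * z₁ + (1 + y₁) * z₂) / (1 + y₁ + y₂)) := by
  field_simp

theorem NP_ser_NP {p : PP} {Φ : Set PP} {r : PP} {Ψ : Set PP} (hp : NP p Φ) (hr : NP r Ψ) :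
    NP (ser p r) (serF p Φ r Ψ) := by
  obtain ⟨y₁, z₁, j1, p1, q1, s1, h1⟩ := hp
  obtain ⟨y₂, z₂, j2, p2, q2, s2, h2⟩ := hr
  refine ⟨y₁ * y₂ / (1 + y₁ + y₂), (1 + (1 + y₂) * z₁ + (1 + y₁) * z₂) / (1 + y₁ + y₂), ?_,
    (ser_y p1 q1 p2).1, (ser_y p1 q1 p2).2, by positivity, ?_⟩
  · have := Jet_ser j1 j2 (by positivity)
    rwa [ser_D p1 p2] at this
  · intro o yo Do ho ho0 ho1 hbad
    have k1 := h1 (ser r o) _ _ (Jet_ser j2 ho (by positivity)) (ser_env p2 q2 ho0).1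
      (ser_env p2 q2 ho0).2 fun c hc => bad_ser_left (hbad _ (Or.inl ⟨c, hc, rfl⟩))
    have k2 := h2 (ser p o) _ _ (Jet_ser j1 ho (by positivity)) (ser_env p1 q1 ho0).1
      (ser_env p1 q1 ho0).2 fun c hc => bad_ser_right (hbad _ (Or.inr ⟨c, hc, rfl⟩))
    exact series_ineq p1 q1 p2 q2 s1 s2 ho0 ho1 k1 k2

theorem NP_ser_real {p : PP} {Φ : Set PP} {r : PP} {Ψ : Set PP} (hp : NP p Φ)
    (hr : RealP r Ψ) : NP (ser p r) (serF p Φ r Ψ) := by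
  obtain ⟨y₁, z₁, j1, p1, q1, s1, h1⟩ := hp
  obtain ⟨rfl, hr2⟩ := hr
  have jr : Jet ((0, 1) : PP) 1 (1 * 0) := by simpa using Jet_real
  refine ⟨y₁ * 1 / (1 + y₁ + 1), (1 + (1 + 1) * z₁ + (1 + y₁) * 0) / (1 + y₁ + 1), ?_,
    (ser_y p1 q1 one_pos).1, (ser_y p1 q1 one_pos).2, by positivity, ?_⟩
  · have := Jet_ser j1 jr (by positivity)
    rwa [ser_D p1 one_pos] at this
  · intro o yo Do ho ho0 ho1 hbad
    have k1 := h1 (ser (0, 1) o) _ _ (Jet_ser Jet_real ho (by positivity))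
      (ser_env one_pos le_rfl ho0).1 (ser_env one_pos le_rfl ho0).2
      fun c hc => bad_ser_left (hbad _ (Or.inl ⟨c, hc, rfl⟩))
    exact series_ineq_edge p1 s1 ho0 k1

theorem serF_comm (p : PP) (Φ : Set PP) (r : PP) (Ψ : Set PP) :
    serF p Φ r Ψ = serF r Ψ p Φ := by
  ext x
  simp only [serF, Set.mem_setOf_eq]
  constructor
  · rintro (⟨c, hc, rfl⟩ | ⟨c, hc, rfl⟩)
    · exact Or.inr ⟨c, hc, ser_comm _ _⟩
    · exact Or.inl ⟨c, hc, ser_comm _ _⟩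
  · rintro (⟨c, hc, rfl⟩ | ⟨c, hc, rfl⟩)
    · exact Or.inr ⟨c, hc, ser_comm _ _⟩
    · exact Or.inl ⟨c, hc, ser_comm _ _⟩

theorem parF_comm (p : PP) (Φ : Set PP) (r : PP) (Ψ : Set PP) :
    parF p Φ r Ψ = parF r Ψ p Φ := by
  ext x
  simp only [parF, Set.mem_setOf_eq]
  constructor
  · rintro (⟨c, hc, rfl⟩ | ⟨c, hc, rfl⟩)
    · exact Or.inr ⟨c, hc, par_comm _ _⟩
    · exact Or.inl ⟨c, hc, par_comm _ _⟩
  · rintro (⟨c, hc, rfl⟩ | ⟨c, hc, rfl⟩)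
    · exact Or.inr ⟨c, hc, par_comm _ _⟩
    · exact Or.inl ⟨c, hc, par_comm _ _⟩

theorem real_ser_real {p : PP} {Φ : Set PP} {r : PP} {Ψ : Set PP} (hp : RealP p Φ)
    (hr : RealP r Ψ) : NP (ser p r) (serF p Φ r Ψ) := by
  obtain ⟨rfl, hp2⟩ := hp
  obtain ⟨rfl, hr2⟩ := hr
  have jr : Jet ((0, 1) : PP) 1 (1 * 0) := by simpa using Jet_real
  refine ⟨1 * 1 / (1 + 1 + 1), (1 + (1 + 1) * 0 + (1 + 1) * 0) / (1 + 1 + 1), ?_,
    by norm_num, by norm_num, by norm_num, ?_⟩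
  · have := Jet_ser jr jr (by norm_num)
    rwa [ser_D one_pos one_pos] at this
  · intro o yo Do ho ho0 ho1 hbad
    have k1 := bad_real (Jet_ser Jet_real ho (by positivity))
      (bad_ser_left (hbad _ (Or.inl ⟨(1, 0), hp2, rfl⟩)))
    exact series_ineq_edges ho0 k1

theorem ser_NP {p : PP} {Φ : Set PP} {r : PP} {Ψ : Set PP} (hp : RealP p Φ ∨ NP p Φ)
    (hr : RealP r Ψ ∨ NP r Ψ) : NP (ser p r) (serF p Φ r Ψ) := by
  rcases hp with hp | hp <;> rcases hr with hr | hr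
  · exact real_ser_real hp hr
  · rw [ser_comm, serF_comm]
    exact NP_ser_real hr hp
  · exact NP_ser_real hp hr
  · exact NP_ser_NP hp hr

theorem par_D {y₁ y₂ z₁ z₂ : ℝ} (hy₁ : 0 < y₁) (hy₁' : y₁ ≤ 1) (hy₂ : 0 < y₂) :
    y₁ * z₁ * (1 - y₂) + y₂ * z₂ * (1 - y₁) =
      (y₁ + y₂ - y₁ * y₂) *
        ((y₁ * z₁ * (1 - y₂) + y₂ * z₂ * (1 - y₁)) / (y₁ + y₂ - y₁ * y₂)) := by
  have : 0 < y₁ + y₂ - y₁ * y₂ := by nlinarith
  field_simp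

theorem par_z {y₁ y₂ z₁ z₂ : ℝ} (hy₁ : 0 < y₁) (hy₁' : y₁ ≤ 1) (hy₂ : 0 < y₂) (hy₂' : y₂ ≤ 1)
    (hz₁ : 0 ≤ z₁) (h12 : z₂ ≤ z₁) :
    (y₁ * z₁ * (1 - y₂) + y₂ * z₂ * (1 - y₁)) / (y₁ + y₂ - y₁ * y₂) ≤ z₁ := by
  have : 0 < y₁ + y₂ - y₁ * y₂ := by nlinarith
  rw [div_le_iff₀ this]
  have h1 : y₂ * z₂ * (1 - y₁) ≤ y₂ * z₁ * (1 - y₁) :=
    mul_le_mul_of_nonneg_right (mul_le_mul_of_nonneg_left h12 hy₂.le) (by linarith)
  have h2 : 0 ≤ y₁ * y₂ * z₁ := by positivity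
  nlinarith

theorem NP_par_NP_aux {p : PP} {Φ : Set PP} {r : PP} {Ψ : Set PP} {y₁ z₁ y₂ z₂ : ℝ}
    (j1 : Jet p y₁ (y₁ * z₁)) (p1 : 0 < y₁) (q1 : y₁ ≤ 1) (s1 : 0 ≤ z₁)
    (h1 : ∀ (o : PP) (yo Do : ℝ), Jet o yo Do → 0 ≤ yo → yo ≤ 1 → (∀ c ∈ Φ, Bad c p o) →
      z₁ + 1 / 2 < Do)
    (j2 : Jet r y₂ (y₂ * z₂)) (p2 : 0 < y₂) (q2 : y₂ ≤ 1) (s2 : 0 ≤ z₂) (h12 : z₂ ≤ z₁) :
    NP (par p r) (parF p Φ r Ψ) := by
  have hy : 0 < y₁ + y₂ - y₁ * y₂ := by nlinarith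
  refine ⟨y₁ + y₂ - y₁ * y₂,
    (y₁ * z₁ * (1 - y₂) + y₂ * z₂ * (1 - y₁)) / (y₁ + y₂ - y₁ * y₂), ?_, hy,
    (par_env p1 q1 p2.le q2).2, ?_, ?_⟩
  · have := Jet_par j1 j2
    rwa [par_D p1 q1 p2] at this
  · apply div_nonneg _ hy.le
    have : 0 ≤ 1 - y₂ := by linarith
    have : 0 ≤ 1 - y₁ := by linarith
    positivity
  · intro o yo Do ho ho0 ho1 hbad
    have k1 := h1 (par r o) _ _ (Jet_par j2 ho) (par_env p2 q2 ho0 ho1).1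
      (par_env p2 q2 ho0 ho1).2 fun c hc => bad_par_left (hbad _ (Or.inl ⟨c, hc, rfl⟩))
    have k2 := par_ineq p2 q2 s2 ho0 h12 k1
    have k3 := par_z p1 q1 p2 q2 s1 h12
    linarith

theorem NP_par_NP {p : PP} {Φ : Set PP} {r : PP} {Ψ : Set PP} (hp : NP p Φ) (hr : NP r Ψ) :
    NP (par p r) (parF p Φ r Ψ) := by
  obtain ⟨y₁, z₁, j1, p1, q1, s1, h1⟩ := hp
  obtain ⟨y₂, z₂, j2, p2, q2, s2, h2⟩ := hr
  rcases le_total z₂ z₁ with h | h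
  · exact NP_par_NP_aux j1 p1 q1 s1 h1 j2 p2 q2 s2 h
  · rw [par_comm, parF_comm]
    exact NP_par_NP_aux j2 p2 q2 s2 h2 j1 p1 q1 s1 h

/-- A network parallel to a real edge always has an edge which is not bad. -/
theorem real_par_NP {p : PP} {Φ : Set PP} {r : PP} {Ψ : Set PP} (hp : RealP p Φ)
    (hr : NP r Ψ) : ∃ b : ℝ[X], (par p r) = (0, b) ∧ b.eval (-1) ≠ 0 ∧
      ∃ c ∈ parF p Φ r Ψ, ∃ b' : ℝ[X], c = (0, b') ∧ br b' b < 0 := by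
  obtain ⟨rfl, hp2⟩ := hp
  obtain ⟨y₂, z₂, j2, p2, q2, s2, h2⟩ := hr
  refine ⟨r.2, by simp [par], j2.1, ?_⟩
  by_contra hcon
  push Not at hcon
  have := h2 (0, 1) 1 0 Jet_real zero_le_one le_rfl fun c hc => ?_
  · linarith
  · have h3 := hcon (par (0, 1) c) (Or.inr ⟨c, hc, rfl⟩) c.2 (by simp [par])
    unfold Bad
    have e1 : prg c (0, 1) = (X - 1) * c.2 := by simp [prg]
    have e2 : prg r (0, 1) = (X - 1) * r.2 := by simp [prg]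
    rw [e1, e2]
    unfold br at h3 ⊢
    simp only [derivative_mul, derivative_sub, derivative_X, derivative_one, sub_zero, one_mul,
      eval_add, eval_mul, eval_sub, eval_X, eval_one]
    nlinarith

theorem real_par_NP' {p : PP} {Φ : Set PP} {r : PP} {Ψ : Set PP} (hp : RealP p Φ)
    (hr : NP r Ψ) : NP (par p r) (parF p Φ r Ψ) := by
  obtain ⟨rfl, hp2⟩ := hp
  obtain ⟨y₂, z₂, j2, p2, q2, s2, h2⟩ := hr
  refine ⟨1, 0, ?_, one_pos, le_rfl, le_rfl, ?_⟩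
  · have := Jet_par Jet_real j2
    have e1 : 1 + y₂ - 1 * y₂ = 1 := by ring
    have e2 : 0 * (1 - y₂) + y₂ * z₂ * (1 - 1) = 1 * 0 := by ring
    rwa [e1, e2] at this
  · intro o yo Do ho ho0 ho1 hbad
    have k := h2 (par (0, 1) o) _ _ (Jet_par Jet_real ho) (par_env one_pos le_rfl ho0 ho1).1
      (par_env one_pos le_rfl ho0 ho1).2 fun c hc => bad_par_right (hbad _ (Or.inr ⟨c, hc, rfl⟩))
    have e : 0 * (1 - yo) + Do * (1 - 1) = 0 := by ring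
    rw [e] at k
    linarith

theorem par_NP {p : PP} {Φ : Set PP} {r : PP} {Ψ : Set PP}
    (hp : EmptyP p Φ ∨ RealP p Φ ∨ NP p Φ) (hr : NP r Ψ) : NP (par p r) (parF p Φ r Ψ) := by
  rcases hp with ⟨rfl, rfl⟩ | hp | hp
  · have e1 : par (1, 1) r = r := by simp [par]
    have e2 : parF (1, 1) ∅ r Ψ = Ψ := by
      ext x
      simp [parF, par]
    rw [e1, e2]
    exact hr
  · exact real_par_NP' hp hr
  · exact NP_par_NP hp hr

/-- Closing with the empty environment. -/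
theorem NP_close {p : PP} {Φ : Set PP} (h : NP p Φ) :
    ∃ c ∈ Φ, br (prg c (1, 1)) (prg p (1, 1)) < 0 := by
  obtain ⟨y, z, j, p1, q1, s1, h1⟩ := h
  by_contra hcon
  push Not at hcon
  have := h1 (1, 1) 0 0 Jet_empty le_rfl zero_le_one fun c hc => hcon c hc
  linarith

end Pool.Agent.BCF
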