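import Pool.Agent.BCF.Elim

/-!
# One step of the elimination
-/

open Polynomial

namespace Pool.Agent.BCF

variable {V : Type} [Fintype V] [DecidableEq V]

/-- The later neighbours of `x`. -/
def Later (H : SimpleGraph V) (C : Finset V) (f : V → ℕ) (x y : V) : Prop :=
  H.Adj x y ∧ (y ∈ C → f x < f y)

omit [Fintype V] in
theorem elim_pos {w : Sym2 V → PP} {x a b : V} {s : Sym2 V} (h : s = s(x, a) ∨ s = s(x, b)) :
    elim w x a b s = (1, 1) := by
  unfold elim
  rw [if_pos h]

omit [Fintype V] in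
theorem elim_mid {w : Sym2 V → PP} {x a b : V} (ha : x ≠ a) (hb : x ≠ b) :
    elim w x a b s(a, b) = par (w s(a, b)) (ser (w s(x, a)) (w s(x, b))) := by
  have n1 : s(x, a) ≠ s(a, b) := mk_ne_left ha hb
  have n2 : s(x, b) ≠ s(a, b) := mk_ne_left ha hb
  have h1 : ¬ (s(a, b) = s(x, a) ∨ s(a, b) = s(x, b)) := by
    rintro (h | h)
    · exact n1 h.symm
    · exact n2 h.symm
  unfold elim
  rw [if_neg h1, if_pos rfl]

omit [Fintype V] in
theorem elim_neg {w : Sym2 V → PP} {x a b : V} {s : Sym2 V} (h : x ∉ s) (h2 : s ≠ s(a, b)) :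
    elim w x a b s = w s := by
  have h1 : ¬ (s = s(x, a) ∨ s = s(x, b)) := by
    rintro (rfl | rfl) <;> exact h (by simp)
  unfold elim
  rw [if_neg h1, if_neg h2]

theorem St_step {H : SimpleGraph V} {C D : Finset V} {u v : V} {q : PP} {w1 w : Sym2 V → PP}
    {Φ : Sym2 V → Set PP} {f : V → ℕ} (hf : Function.Injective f) (huC : u ∉ C) (hvC : v ∉ C)
    (huv : u ≠ v) (hq : q = (0, 1) ∨ q = (1, 1))
    (h2 : ∀ x ∈ C, ∀ y, H.Adj x y → y ∈ C ∨ y = u ∨ y = v)
    (h3 : ∀ x ∈ C, ∀ a b c, Later H C f x a → Later H C f x b → Later H C f x c →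
      a = b ∨ a = c ∨ b = c)
    (h4 : ∀ x ∈ C, ∀ a b, Later H C f x a → Later H C f x b → a ≠ b → H.Adj a b)
    (hD : D.Nonempty) (st : St H C D u v q w1 w Φ) :
    ∃ x ∈ D, ∃ a b, x ≠ u ∧ x ≠ v ∧ x ≠ a ∧ x ≠ b ∧ a ≠ b ∧
      (∀ c, c ≠ x → c ≠ a → c ≠ b → w s(x, c) = (1, 1)) ∧
      (∀ c, c ≠ x → c ≠ a → c ≠ b → Φ s(x, c) = ∅) ∧
      St H C (D.erase x) u v q w1 (elim w x a b) (elimF w Φ x a b) := by
  obtain ⟨x, hxD, hmin⟩ := Finset.exists_min_image D f hD
  have hxC : x ∈ C := st.sub hxD
  have hxu : x ≠ u := fun h => huC (h ▸ hxC)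
  have hxv : x ≠ v := fun h => hvC (h ▸ hxC)
  set R : Set V := {t | t ∉ C ∨ t ∈ D} with hR
  set K : V → V → Prop := fun p r => p ≠ r ∧ wq q u v w s(p, r) ≠ (1, 1) with hK
  have hKx : ∀ c, K x c → w s(x, c) ≠ (1, 1) := by
    intro c hc
    have := hc.2
    rwa [wq_of_ne (mk_ne_left hxu hxv)] at this
  have hKL : ∀ c, c ∈ R → c ≠ x → w s(x, c) ≠ (1, 1) → Later H C f x c := by
    intro c hc hcx hw
    refine ⟨st.adj x hxD c hcx hw, fun hcC => ?_⟩
    have hcD : c ∈ D := by
      rcases hc with h | h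
      · exact absurd hcC h
      · exact h
    exact lt_of_le_of_ne (hmin c hcD) fun h => hcx (hf h).symm
  -- the first neighbour
  obtain ⟨x0, hx0, a, ha, hxa⟩ := st.cut u {x} (by
      rintro t rfl
      exact ⟨Or.inr hxD, hxu⟩) (Set.singleton_nonempty x)
    ⟨v, ⟨Or.inl hvC, huv.symm⟩, hxv.symm⟩
  rw [Set.mem_singleton_iff] at hx0
  subst hx0
  have haR : a ∈ R := ha.1.1
  have hax : x0 ≠ a := hxa.1
  obtain ⟨x1, hx1, b, hb, hxb⟩ := st.cut a {x0} (by
      rintro t rfl
      exact ⟨Or.inr hxD, hax⟩) (Set.singleton_nonempty x0) (by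
        by_cases h : a = u
        · exact ⟨v, ⟨Or.inl hvC, by rw [h]; exact huv.symm⟩, hxv.symm⟩
        · exact ⟨u, ⟨Or.inl huC, fun e => h e.symm⟩, hxu.symm⟩)
  rw [Set.mem_singleton_iff] at hx1
  subst hx1
  have hbR : b ∈ R := hb.1.1
  have hbx : x1 ≠ b := hxb.1
  have hab : a ≠ b := fun h => hb.1.2 h.symm
  have hwa := hKx a hxa
  have hwb := hKx b hxb
  have La := hKL a haR hax.symm hwa
  have Lb := hKL b hbR hbx.symm hwb
  have hw : ∀ c, c ≠ x1 → c ≠ a → c ≠ b → w s(x1, c) = (1, 1) := by
    intro c hc1 hc2 hc3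
    by_contra hne
    by_cases hcR : c ∈ R
    · have Lc := hKL c hcR hc1 hne
      rcases h3 x1 hxC a b c La Lb Lc with h | h | h
      · exact hab h
      · exact hc2 h.symm
      · exact hc3 h.symm
    · rw [hR, Set.mem_setOf_eq] at hcR
      push Not at hcR
      apply hne
      rw [Sym2.eq_swap]
      exact st.out c hcR.1 hcR.2 x1 hc1.symm
  have hHab : H.Adj a b := h4 x1 hxC a b La Lb hab
  have hser : NP (ser (w s(x1, a)) (w s(x1, b)))
      (serF (w s(x1, a)) (Φ s(x1, a)) (w s(x1, b)) (Φ s(x1, b))) :=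
    ser_NP ((st.tri x1 hxD a hax.symm).nonempty hwa) ((st.tri x1 hxD b hbx.symm).nonempty hwb)
  -- if both are not in `D`
  have houter : a ∉ D → b ∉ D → s(a, b) = s(u, v) := by
    intro haD hbD
    have haC : a ∉ C := by
      rcases haR with h | h
      · exact h
      · exact absurd h haD
    have hbC : b ∉ C := by
      rcases hbR with h | h
      · exact h
      · exact absurd h hbD
    rcases h2 x1 hxC a La.1 with h | h | h
    · exact absurd h haC
    · rcases h2 x1 hxC b Lb.1 with h' | h' | h'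
      · exact absurd h' hbC
      · exact absurd (h.trans h'.symm) hab
      · rw [h, h']
    · rcases h2 x1 hxC b Lb.1 with h' | h' | h'
      · exact absurd h' hbC
      · rw [h, h', Sym2.eq_swap]
      · exact absurd (h.trans h'.symm) hab
  have htab : Tri (w s(a, b)) (Φ s(a, b)) := by
    by_cases haD : a ∈ D
    · exact st.tri a haD b hab.symm
    · by_cases hbD : b ∈ D
      · have := st.tri b hbD a hab
        rwa [Sym2.eq_swap] at this
      · rw [houter haD hbD]
        exact st.triuv
  have hpar : NP (par (w s(a, b)) (ser (w s(x1, a)) (w s(x1, b))))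
      (parF (w s(a, b)) (Φ s(a, b)) (ser (w s(x1, a)) (w s(x1, b)))
        (serF (w s(x1, a)) (Φ s(x1, a)) (w s(x1, b)) (Φ s(x1, b)))) := par_NP htab hser
  have nab : ¬ (s(a, b) = s(x1, a) ∨ s(a, b) = s(x1, b)) := by
    rintro (h | h)
    · exact mk_ne_left hax hbx h.symm
    · exact mk_ne_left hax hbx h.symm
  have hmid : NP (elim w x1 a b s(a, b)) (elimF w Φ x1 a b s(a, b)) := by
    rw [elim_mid hax hbx]
    unfold elimF
    rw [if_neg nab, if_pos rfl]
    exact hpar
  have htri : ∀ s, Tri (w s) (Φ s) → Tri (elim w x1 a b s) (elimF w Φ x1 a b s) := by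
    intro s hs
    by_cases h5 : s = s(x1, a) ∨ s = s(x1, b)
    · left
      refine ⟨elim_pos h5, ?_⟩
      unfold elimF
      rw [if_pos h5]
    · by_cases h6 : s = s(a, b)
      · rw [h6]
        exact Or.inr (Or.inr hmid)
      · unfold elim elimF
        rw [if_neg h5, if_neg h6, if_neg h5, if_neg h6]
        exact hs
  have hwq : wq q u v (elim w x1 a b) s(a, b) ≠ (1, 1) := by
    by_cases h5 : s(a, b) = s(u, v)
    · have e1 : wq q u v (elim w x1 a b) s(a, b) = par (elim w x1 a b s(a, b)) q := by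
        unfold wq
        rw [h5, Function.update_self]
      rw [e1]
      rcases hq with rfl | rfl
      · rw [par_comm]
        exact NP_ne (real_par_NP' (Φ := {(1, 0)}) ⟨rfl, rfl⟩ hmid)
      · have e2 : par (elim w x1 a b s(a, b)) (1, 1) = elim w x1 a b s(a, b) := by
          simp [par]
        rw [e2]
        exact NP_ne hmid
    · rw [wq_of_ne h5]
      exact NP_ne hmid
  refine ⟨x1, hxD, a, b, hxu, hxv, hax, hbx, hab, hw, ?_, ?_⟩
  · intro c hc1 hc2 hc3
    exact (st.tri x1 hxD c hc1).empty (hw c hc1 hc2 hc3)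
  · refine ⟨(Finset.erase_subset _ _).trans st.sub, ?_, htri _ st.triuv, ?_, ?_, ?_, ?_, ?_⟩
    · intro y hy r hr
      exact htri _ (st.tri y (Finset.mem_of_mem_erase hy) r hr)
    · intro y hyC hyD r hr
      by_cases hyx : y = x1
      · subst hyx
        by_cases h5 : s(y, r) = s(y, a) ∨ s(y, r) = s(y, b)
        · exact elim_pos h5
        · unfold elim
          rw [if_neg h5, if_neg (mk_ne_left hax hbx)]
          push Not at h5
          apply hw r hr
          · rintro rfl; exact h5.1 rfl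
          · rintro rfl; exact h5.2 rfl
      · have hyD' : y ∉ D := fun h => hyD (Finset.mem_erase.mpr ⟨hyx, h⟩)
        by_cases h5 : s(y, r) = s(x1, a) ∨ s(y, r) = s(x1, b)
        · exact elim_pos h5
        · have h6 : s(y, r) ≠ s(a, b) := by
            apply mk_ne_left
            · rintro rfl
              rcases haR with h | h
              · exact h hyC
              · exact hyD' h
            · rintro rfl
              rcases hbR with h | h
              · exact h hyC
              · exact hyD' h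
          unfold elim
          rw [if_neg h5, if_neg h6]
          exact st.out y hyC hyD' r hr
    · intro y hy r hr hne
      by_cases h5 : s(y, r) = s(x1, a) ∨ s(y, r) = s(x1, b)
      · exact absurd (elim_pos h5) hne
      · by_cases h6 : s(y, r) = s(a, b)
        · rw [Sym2.eq_iff] at h6
          rcases h6 with ⟨rfl, rfl⟩ | ⟨rfl, rfl⟩
          · exact hHab
          · exact hHab.symm
        · unfold elim at hne
          rw [if_neg h5, if_neg h6] at hne
          exact st.adj y (Finset.mem_of_mem_erase hy) r hr hne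
    · intro s hs hsuv
      have h5 : x1 ∉ s := hs x1 hxC
      have h6 : s ≠ s(a, b) := by
        rintro rfl
        apply hsuv
        apply houter
        · intro h
          exact hs a (st.sub h) (by simp)
        · intro h
          exact hs b (st.sub h) (by simp)
      rw [elim_neg h5 h6]
      exact st.rest s hs hsuv
    · intro z
      have e : ({t | t ∉ C ∨ t ∈ D.erase x1} \ {z} : Set V) = (R \ {x1}) \ {z} := by
        ext t
        simp only [hR, Set.mem_sdiff, Set.mem_setOf_eq, Finset.mem_erase, Set.mem_singleton_iff]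
        constructor
        · rintro ⟨h | h, hz⟩
          · exact ⟨⟨Or.inl h, fun e => h (e ▸ hxC)⟩, hz⟩
          · exact ⟨⟨Or.inr h.2, h.1⟩, hz⟩
        · rintro ⟨⟨h | h, hx⟩, hz⟩
          · exact ⟨Or.inl h, hz⟩
          · exact ⟨Or.inr ⟨hx, h⟩, hz⟩
      rw [e]
      apply Cut_step (K := K) (a := a) (b := b) (x := x1) _ _ _ ⟨hab, hwq⟩ _ st.cut
      · rintro p r ⟨h5, h6⟩
        refine ⟨h5.symm, ?_⟩
        rwa [Sym2.eq_swap]
      · intro c hc
        by_contra hcon
        push Not at hcon
        exact hKx c hc (hw c hc.1.symm hcon.1 hcon.2)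
      · rintro p r hp hr ⟨h5, h6⟩
        refine ⟨h5, ?_⟩
        by_cases h7 : s(p, r) = s(a, b)
        · rw [h7]
          exact hwq
        · have h8 : x1 ∉ s(p, r) := by
            rw [Sym2.mem_iff]
            rintro (h | h)
            · exact hp h.symm
            · exact hr h.symm
          have h9 : wq q u v (elim w x1 a b) s(p, r) = wq q u v w s(p, r) := by
            by_cases h10 : s(p, r) = s(u, v)
            · unfold wq
              rw [← h10, Function.update_self, Function.update_self, elim_neg h8 h7]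
            · rw [wq_of_ne h10, wq_of_ne h10, elim_neg h8 h7]
          rw [h9]
          exact h6
      · refine ⟨hab.symm, ?_⟩
        rw [Sym2.eq_swap]
        exact hwq
    · intro hD'
      have haD : a ∉ D := by
        intro h
        have : a ∈ D.erase x1 := Finset.mem_erase.mpr ⟨hax.symm, h⟩
        rw [hD'] at this
        exact absurd this (Finset.notMem_empty _)
      have hbD : b ∉ D := by
        intro h
        have : b ∈ D.erase x1 := Finset.mem_erase.mpr ⟨hbx.symm, h⟩
        rw [hD'] at this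
        exact absurd this (Finset.notMem_empty _)
      rw [← houter haD hbD]
      exact hmid

theorem main_ind {H : SimpleGraph V} {C : Finset V} {u v : V} {q : PP} {w1 : Sym2 V → PP}
    {f : V → ℕ} (hf : Function.Injective f) (huC : u ∉ C) (hvC : v ∉ C)
    (huv : u ≠ v) (hq : q = (0, 1) ∨ q = (1, 1))
    (h2 : ∀ x ∈ C, ∀ y, H.Adj x y → y ∈ C ∨ y = u ∨ y = v)
    (h3 : ∀ x ∈ C, ∀ a b c, Later H C f x a → Later H C f x b → Later H C f x c →
      a = b ∨ a = c ∨ b = c)
    (h4 : ∀ x ∈ C, ∀ a b, Later H C f x a → Later H C f x b → a ≠ b → H.Adj a b)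
    (hbase : ∀ w Φ, St H C ∅ u v q w1 w Φ → Concl q u v w Φ) (n : ℕ) :
    ∀ D : Finset V, D.card = n → ∀ w Φ, St H C D u v q w1 w Φ → Concl q u v w Φ := by
  induction n with
  | zero =>
    intro D hD w Φ st
    rw [Finset.card_eq_zero] at hD
    subst hD
    exact hbase w Φ st
  | succ n ih =>
    intro D hD w Φ st
    have hne : D.Nonempty := by
      rw [← Finset.card_pos]; omega
    obtain ⟨x, hxD, a, b, hu, hv, ha, hb, hab, hw, hΦ, st'⟩ :=
      St_step hf huC hvC huv hq h2 h3 h4 hne st
    refine Concl_step hu hv ha hb hab hw hΦ (ih (D.erase x) ?_ _ _ st')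
    rw [Finset.card_erase_of_mem hxD, hD]
    rfl

end Pool.Agent.BCF
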